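import Pool.Agent.R620.MTL.Emb

/-! # Amalgamation and the deductive interpolation property -/

set_option autoImplicit false

namespace Pool.Agent.R620.MTL

section amalg

variable {I I' : Type} [LinearOrder I] [LinearOrder I'] {μ : I → ℤ → Prop}
    {μ' : I' → ℤ → Prop} {Q : El I → El I' → Prop}

variable (Q) in
/-- The blocks touched by the partial isomorphism. -/
def dom : Set I := {i | ∃ k i' k', Q (.u (.pt i k)) (.u (.pt i' k'))}

theorem dom_spec (i : dom Q) : ∃ (i' : I') (o : ℤ), ∃ k, Q (.u (.pt i.1 k)) (.u (.pt i' (k + o))) := by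
  obtain ⟨i, k, i', k', h⟩ := i
  exact ⟨i', k' - k, k, by simpa using h⟩

/-- The partner of a block. -/
noncomputable def th (i : dom Q) : I' := (dom_spec i).choose

/-- The offset. -/
noncomputable def ofs (i : dom Q) : ℤ := (dom_spec i).choose_spec.choose

theorem th_spec (h : PI μ μ' Q) (i : dom Q) (k : ℤ) :
    Q (.u (.pt i.1 k)) (.u (.pt (th i) (k + ofs i))) := by
  obtain ⟨k0, h0⟩ := (dom_spec i).choose_spec.choose_spec
  have h1 := h.shift h0 (k - k0)
  have e1 : k0 + (k - k0) = k := by ring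
  have e2 : k0 + (dom_spec i).choose_spec.choose + (k - k0) = k + ofs i := by
    change k0 + ofs i + (k - k0) = _
    ring
  rw [e1, e2] at h1
  exact h1

theorem th_lt (h : PI μ μ' Q) {i j : dom Q} (hij : i < j) : th i < th j :=
  h.lt_of (th_spec h i 0) (th_spec h j 0) hij

theorem th_mono (h : PI μ μ' Q) : StrictMono (th : dom Q → I') := fun _ _ hij => th_lt h hij

/-- The cut of an element of `I`. -/
def cut (i : I) : LowerSet (dom Q) := ⟨{j | j.1 < i}, fun _ _ h1 h2 => lt_of_le_of_lt h1 h2⟩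

/-- The cut of an element of `I'`. -/
def cut' (h : PI μ μ' Q) (i : I') : LowerSet (dom Q) :=
  ⟨{j | th j < i}, fun _ _ h1 h2 => lt_of_le_of_lt ((th_mono h).monotone h1) h2⟩

variable (Q) in
/-- The block order of the amalgam. -/
abbrev Am : Type := LowerSet (dom Q) ×ₗ WithTop (I ⊕ₗ I')

open Classical in
variable (Q) in
/-- first embedding -/
noncomputable def e1 (i : I) : Am Q :=
  toLex (cut i, if i ∈ dom Q then ⊤ else ((toLex (Sum.inl i) : I ⊕ₗ I') : WithTop (I ⊕ₗ I')))

open Classical in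
/-- second embedding -/
noncomputable def e2 (h : PI μ μ' Q) (i : I') : Am Q :=
  toLex (cut' h i, if ∃ j : dom Q, th j = i then ⊤ else
    ((toLex (Sum.inr i) : I ⊕ₗ I') : WithTop (I ⊕ₗ I')))

theorem e1_mono : StrictMono (e1 Q) := by
  intro i j hij
  rw [e1, e1, Prod.Lex.toLex_lt_toLex]
  have h1 : (cut i : LowerSet (dom Q)) ≤ cut j := fun k hk => lt_trans (show k.1 < i from hk) hij
  rcases h1.lt_or_eq with h2 | h2
  · exact Or.inl h2
  · refine Or.inr ⟨h2, ?_⟩
    have hi : i ∉ dom Q := by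
      intro hi
      have : (⟨i, hi⟩ : dom Q) ∈ (cut j : LowerSet (dom Q)) := hij
      rw [← h2] at this
      exact lt_irrefl i this
    simp only [hi, if_false]
    split_ifs with hj
    · exact WithTop.coe_lt_top _
    · rw [WithTop.coe_lt_coe]
      simpa using hij

theorem e2_mono (h : PI μ μ' Q) : StrictMono (e2 h) := by
  intro i j hij
  rw [e2, e2, Prod.Lex.toLex_lt_toLex]
  have h1 : cut' h i ≤ cut' h j := fun k hk => lt_trans (show th k < i from hk) hij
  rcases h1.lt_or_eq with h2 | h2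
  · exact Or.inl h2
  · refine Or.inr ⟨h2, ?_⟩
    have hi : ¬ ∃ k : dom Q, th k = i := by
      rintro ⟨k, rfl⟩
      have : k ∈ cut' h j := hij
      rw [← h2] at this
      exact lt_irrefl (th k) this
    simp only [hi, if_false]
    split_ifs with hj
    · exact WithTop.coe_lt_top _
    · rw [WithTop.coe_lt_coe]
      simpa using hij

theorem e1_eq_e2 (h : PI μ μ' Q) (i : dom Q) : e1 Q i.1 = e2 h (th i) := by
  rw [e1, e2, if_pos i.2, if_pos ⟨i, rfl⟩]
  congr 2
  ext k
  change k.1 < i.1 ↔ th k < th i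
  rw [(th_mono h).lt_iff_lt]
  rfl

theorem eq_th (h : PI μ μ' Q) {i : I} {i' : I'} (heq : e1 Q i = e2 h i') :
    ∃ hi : i ∈ dom Q, th ⟨i, hi⟩ = i' := by
  rw [e1, e2] at heq
  have h1 := congrArg (fun x => (ofLex x).1) heq
  have h2 := congrArg (fun x => (ofLex x).2) heq
  simp only [ofLex_toLex] at h1 h2
  by_cases hi : i ∈ dom Q
  · rw [if_pos hi] at h2
    by_cases hj : ∃ j : dom Q, th j = i'
    · obtain ⟨j, rfl⟩ := hj
      refine ⟨hi, ?_⟩
      have h3 : ∀ k : dom Q, k.1 < i ↔ th k < th j := fun k => by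
        have : k ∈ (cut i : LowerSet (dom Q)) ↔ k ∈ cut' h (th j) := by rw [h1]
        exact this
      rcases lt_trichotomy (⟨i, hi⟩ : dom Q) j with h4 | h4 | h4
      · have := (h3 ⟨i, hi⟩).2 (th_lt h h4)
        exact absurd this (lt_irrefl _)
      · rw [h4]
      · have := (h3 j).1 h4
        exact absurd this (lt_irrefl _)
    · rw [if_neg hj] at h2
      exact absurd h2 (by simp)
  · rw [if_neg hi] at h2
    by_cases hj : ∃ j : dom Q, th j = i'
    · rw [if_pos hj] at h2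
      exact absurd h2 (by simp)
    · rw [if_neg hj] at h2
      exact absurd h2 (by simp)

open Classical in
variable (Q) in
/-- The offset of a block. -/
noncomputable def off1 (i : I) : ℤ := if h : i ∈ dom Q then ofs ⟨i, h⟩ else 0

/-- The marks of the amalgam. -/
def am (μ : I → ℤ → Prop) (μ' : I' → ℤ → Prop) (h : PI μ μ' Q) (q : Am Q) (k : ℤ) : Prop :=
  (∃ i', e2 h i' = q ∧ μ' i' k) ∨ (∃ i, e1 Q i = q ∧ μ i (k - off1 Q i))

theorem mark_iff (h : PI μ μ' Q) (i : dom Q) (k : ℤ) :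
    μ i.1 (k - off1 Q i.1) ↔ μ' (th i) k := by
  have h1 := h.marks (th_spec h i (k - ofs i))
  have h2 : off1 Q i.1 = ofs i := by
    rw [off1, dif_pos i.2]
  rw [h2, h1]
  have : k - ofs i + ofs i = k := by ring
  rw [this]

theorem am_e2 (h : PI μ μ' Q) (i' : I') (k : ℤ) : am μ μ' h (e2 h i') k ↔ μ' i' k := by
  constructor
  · rintro (⟨j, h1, h2⟩ | ⟨i, h1, h2⟩)
    · rwa [(e2_mono h).injective h1] at h2
    · obtain ⟨hi, h3⟩ := eq_th h h1
      rw [← h3, ← mark_iff h]
      exact h2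
  · intro h1
    exact Or.inl ⟨i', rfl, h1⟩

theorem am_e1 (h : PI μ μ' Q) (i : I) (k : ℤ) :
    am μ μ' h (e1 Q i) k ↔ μ i (k - off1 Q i) := by
  constructor
  · rintro (⟨j, h1, h2⟩ | ⟨j, h1, h2⟩)
    · obtain ⟨hi, h3⟩ := eq_th h h1.symm
      rw [← h3, ← mark_iff h] at h2
      exact h2
    · rwa [e1_mono.injective h1] at h2
  · intro h1
    exact Or.inr ⟨i, rfl, h1⟩

theorem am_legal {S : Set ℕ} (h : PI μ μ' Q) (hμ : ∀ i, Legal S (μ i))
    (hμ' : ∀ i, Legal S (μ' i)) (q : Am Q) : Legal S (am μ μ' h q) := by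
  intro k d hd h1
  rcases h1 with ⟨i', rfl, h1⟩ | ⟨i, rfl, h1⟩
  · rw [am_e2]
    exact hμ' i' k d hd h1
  · rw [am_e1]
    have := hμ i _ d hd h1
    have e : k + d + 1 - off1 Q i = k - off1 Q i + d + 1 := by ring
    rw [e]
    exact this

theorem agree (h : PI μ μ' Q) {a b} (hab : Q a b) :
    eE (e1 Q) (off1 Q) a = eE (e2 h) (fun _ => 0) b := by
  have key : ∀ {i k i' k'}, Q (.u (.pt i k)) (.u (.pt i' k')) →
      eX (e1 Q) (off1 Q) (X.pt i k) = eX (e2 h) (fun _ => 0) (X.pt i' k') := by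
    intro i k i' k' h1
    have hi : i ∈ dom Q := ⟨k, i', k', h1⟩
    have h2 := th_spec h ⟨i, hi⟩ k
    have h3 := (h.eq h1 h2).1 rfl
    simp only [El.u.injEq, X.pt.injEq] at h3
    obtain ⟨h3, h4⟩ := h3
    simp only [eX, X.pt.injEq]
    constructor
    · rw [h3]; exact e1_eq_e2 h ⟨i, hi⟩
    · rw [off1, dif_pos hi, add_zero]; exact h4.symm
  cases a with
  | zero =>
    have := (h.eq hab h.zero).1 rfl
    rw [this]; rfl
  | one =>
    have := (h.eq hab h.one).1 rfl
    rw [this]; rfl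
  | u x =>
    cases x with
    | bot =>
      obtain ⟨x', rfl⟩ := h.u_left hab
      rw [(h.u_bot hab).1 rfl]; rfl
    | pt i k =>
      obtain ⟨i', k', rfl⟩ := h.u_pt hab
      simp only [eE, key hab]
  | n x r =>
    cases x with
    | bot => rw [h.n_bot hab]; rfl
    | pt i k =>
      obtain ⟨i', k', rfl, h1⟩ := h.n_pt hab
      simp only [eE, key h1]

end amalg

theorem ev_congr {I : Type} [LinearOrder I] (μ : I → ℤ → Prop) {v w : ℕ → El I} (φ : Fm)
    (h : ∀ i ∈ vars φ, v i = w i) : El.ev μ v φ = El.ev μ w φ := by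
  rw [← El.eval_alg, ← El.eval_alg]
  exact @eval_congr (El I) (El.alg μ) v w φ h

theorem ev_foldr {I : Type} [LinearOrder I] (μ : I → ℤ → Prop) (v : ℕ → El I) (l : List Fm)
    (ψ : Fm) : El.ev μ v (l.foldr imp3 ψ) = .one ↔
      ((∀ γ ∈ l, El.ev μ v γ = .one) → El.ev μ v ψ = .one) := by
  have := @eval_foldr (El I) (El.alg μ) (El.cube μ) v l ψ
  simp only [El.eval_alg] at this
  exact this

/-- The logics have the deductive interpolation property. -/
theorem dip (S : Set ℕ) : DIP (KCons S) := by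
  classical
  intro Γ φ hφ
  let Z : Set ℕ := {i | (∃ γ ∈ Γ, i ∈ vars γ) ∧ i ∈ vars φ}
  refine ⟨{δ | (∀ i ∈ vars δ, i ∈ Z) ∧ KCons S Γ δ}, fun δ h => h.1, fun δ h => h.2, ?_⟩
  intro I _ μ hμ v hv
  by_contra hne
  -- a model of `Γ` with the same theory over `Z`
  let Th : Set Fm := {δ | (∀ i ∈ vars δ, i ∈ Z) ∧ El.ev μ v δ = .one}
  have step : ¬ KCons S (Γ ∪ Th) .zero := by
    intro hc
    obtain ⟨l, hl, hlz⟩ := compact hc
    let θ : Fm := (l.filter (fun δ => δ ∈ Th)).foldr imp3 .zero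
    have h1 : ∀ i ∈ vars θ, i ∈ Z := by
      intro i hi
      rcases vars_foldr _ _ _ hi with ⟨γ, h2, h3⟩ | h2
      · rw [List.mem_filter] at h2
        have : γ ∈ Th := by simpa using h2.2
        exact this.1 i h3
      · simp [vars] at h2
    have h2 : KCons S Γ θ := by
      intro I' _ μ' hμ' w hw
      rw [ev_foldr]
      intro h3
      refine hlz I' μ' hμ' w fun γ hγ => ?_
      rcases hl γ hγ with h4 | h4
      · exact hw γ h4
      · exact h3 γ (by rw [List.mem_filter]; exact ⟨hγ, by simpa using h4⟩)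
    have h3 := hv θ ⟨h1, h2⟩
    rw [ev_foldr] at h3
    have h4 := h3 (fun γ hγ => by
      rw [List.mem_filter] at hγ
      have : γ ∈ Th := by simpa using hγ.2
      exact this.2)
    simp [El.ev] at h4
  unfold KCons at step
  push Not at step
  obtain ⟨I', _, μ', hμ', w, hw, -⟩ := step
  have hQ : ∀ δ : Fm, (∀ i ∈ vars δ, i ∈ Z) → (El.ev μ v δ = .one ↔ El.ev μ' w δ = .one) := by
    intro δ hδ
    constructor
    · intro h
      exact hw δ (Or.inr ⟨hδ, h⟩)
    · intro h
      by_contra h'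
      have h1 : El.ev μ v ([δ].foldr imp3 .zero) = .one := by
        rw [ev_foldr]
        intro h2
        exact absurd (h2 δ (by simp)) h'
      have h2 := hw _ (Or.inr ⟨fun i hi => by
        rcases vars_foldr _ _ _ hi with ⟨γ, h2, h3⟩ | h2
        · simp only [List.mem_singleton] at h2
          subst h2
          exact hδ i h3
        · simp [vars] at h2, h1⟩)
      rw [ev_foldr] at h2
      have h3 := h2 (by simpa using h)
      simp [El.ev] at h3
  let Q : El I → El I' → Prop := fun a b =>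
    ∃ δ : Fm, (∀ i ∈ vars δ, i ∈ Z) ∧ El.ev μ v δ = a ∧ El.ev μ' w δ = b
  have hPI : PI μ μ' Q := by
    refine ⟨?_, ⟨.one, by simp [vars], rfl, rfl⟩, ⟨.zero, by simp [vars], rfl, rfl⟩, ?_, ?_, ?_⟩
    · rintro a b a' b' ⟨δ, h1, rfl, rfl⟩ ⟨δ', h2, rfl, rfl⟩
      rw [← El.res_eq_one' μ, ← El.res_eq_one' μ']
      exact hQ (.imp δ δ') (fun i hi => by
        simp only [vars, Finset.mem_union] at hi
        exact hi.elim (h1 i) (h2 i))
    · rintro a b a' b' ⟨δ, h1, rfl, rfl⟩ ⟨δ', h2, rfl, rfl⟩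
      exact ⟨.conj δ δ', fun i hi => by
        simp only [vars, Finset.mem_union] at hi
        exact hi.elim (h1 i) (h2 i), rfl, rfl⟩
    · rintro a b a' b' ⟨δ, h1, rfl, rfl⟩ ⟨δ', h2, rfl, rfl⟩
      exact ⟨.imp δ δ', fun i hi => by
        simp only [vars, Finset.mem_union] at hi
        exact hi.elim (h1 i) (h2 i), rfl, rfl⟩
    · rintro a b a' b' ⟨δ, h1, rfl, rfl⟩ ⟨δ', h2, rfl, rfl⟩
      exact ⟨.or δ δ', fun i hi => by
        simp only [vars, Finset.mem_union] at hi
        exact hi.elim (h1 i) (h2 i), rfl, rfl⟩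
  let g : El I → El (Am Q) := eE (e1 Q) (off1 Q)
  let g' : El I' → El (Am Q) := eE (e2 hPI) (fun _ => 0)
  let x : ℕ → El (Am Q) := fun j => if ∃ γ ∈ Γ, j ∈ vars γ then g' (w j) else g (v j)
  have m1 : ∀ i k, am μ μ' hPI (e1 Q i) (k + off1 Q i) ↔ μ i k := by
    intro i k
    rw [am_e1]
    have : k + off1 Q i - off1 Q i = k := by ring
    rw [this]
  have m2 : ∀ i k, am μ μ' hPI (e2 hPI i) (k + 0) ↔ μ' i k := by
    intro i k
    rw [am_e2, add_zero]
  have hx := hφ (Am Q) (am μ μ' hPI) (am_legal hPI hμ hμ') x (fun γ hγ => by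
    have h1 : El.ev (am μ μ' hPI) x γ = El.ev (am μ μ' hPI) (fun i => g' (w i)) γ :=
      ev_congr _ γ fun i hi => if_pos ⟨γ, hγ, hi⟩
    rw [h1, eE_ev (e2_mono hPI) m2 w γ, hw γ (Or.inl hγ)]
    rfl)
  have h2 : El.ev (am μ μ' hPI) x φ = El.ev (am μ μ' hPI) (fun i => g (v i)) φ := by
    refine ev_congr _ φ fun i hi => ?_
    simp only [x]
    split_ifs with h3
    · exact (agree hPI ⟨.var i, fun j hj => by
        simp only [vars, Finset.mem_singleton] at hj
        subst hj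
        exact ⟨h3, hi⟩, rfl, rfl⟩).symm
    · rfl
  rw [h2, eE_ev e1_mono m1 v φ, eE_one] at hx
  exact hne hx

/-- The logics are axiomatic extensions of MTL. -/
theorem isAxExt (S : Set ℕ) : IsAxExt (KCons S) := by
  refine ⟨{φ | KCons S ∅ φ}, fun σ φ h I _ μ hμ v hv => ?_, fun Γ φ => ⟨fun h => ?_, fun h => ?_⟩⟩
  · have h1 := @eval_subst (El I) (El.alg μ) v σ φ
    simp only [El.eval_alg] at h1
    rw [h1]
    exact h I μ hμ _ (by simp)
  · obtain ⟨l, hl, hφ⟩ := compact h
    intro A _ v hv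
    refine foldr_one v l φ (hv _ (Or.inr ?_)) fun γ hγ => hv γ (Or.inl (hl γ hγ))
    intro I _ μ hμ u _
    rw [ev_foldr]
    exact hφ I μ hμ u
  · intro I _ μ hμ v hv
    have h1 := @h (El I) (El.alg μ) v
    simp only [El.eval_alg] at h1
    refine h1 ?_
    rintro γ (h2 | h2)
    · exact hv γ h2
    · exact h2 I μ hμ v (by simp)

end Pool.Agent.R620.MTL
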