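import Mathlib

/-! # MTL and its axiomatic extensions: definitions and basic facts -/

set_option autoImplicit false

universe u

namespace Pool.Agent.R620.MTL

/-- Formulas in the language `{∧, ∨, ·, →, 0, 1}` over the variables `0, 1, 2, ...`. -/
inductive Fm : Type
  | var (i : ℕ) : Fm
  | zero : Fm
  | one : Fm
  | and (φ ψ : Fm) : Fm
  | or (φ ψ : Fm) : Fm
  | conj (φ ψ : Fm) : Fm
  | imp (φ ψ : Fm) : Fm

/-- MTL-algebras: bounded lattices with a commutative monoid structure `(·, 1)` (with `1` the top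
element), a residuum, and prelinearity. -/
class MTLAlgebra (A : Type u) extends Lattice A, BoundedOrder A, CommMonoid A where
  /-- the residuum `x → y` -/
  res : A → A → A
  mul_le_iff : ∀ x y z : A, x * y ≤ z ↔ x ≤ res y z
  one_eq_top : (1 : A) = ⊤
  prelin : ∀ x y : A, res x y ⊔ res y x = 1

/-- The value of a formula under a valuation. -/
def eval {A : Type u} [MTLAlgebra A] (v : ℕ → A) : Fm → A
  | .var i => v i
  | .zero => ⊥
  | .one => 1
  | .and φ ψ => eval v φ ⊓ eval v ψ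
  | .or φ ψ => eval v φ ⊔ eval v ψ
  | .conj φ ψ => eval v φ * eval v ψ
  | .imp φ ψ => MTLAlgebra.res (eval v φ) (eval v ψ)

/-- `Γ ⊢_MTL φ`: every valuation into an MTL-algebra that sends all members of `Γ` to `1` sends `φ`
to `1`. -/
def MTLCons (Γ : Set Fm) (φ : Fm) : Prop :=
  ∀ (A : Type) [MTLAlgebra A] (v : ℕ → A), (∀ γ ∈ Γ, eval v γ = 1) → eval v φ = 1

/-- Substitution. -/
def subst (σ : ℕ → Fm) : Fm → Fm
  | .var i => σ i
  | .zero => .zero
  | .one => .one
  | .and φ ψ => .and (subst σ φ) (subst σ ψ)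
  | .or φ ψ => .or (subst σ φ) (subst σ ψ)
  | .conj φ ψ => .conj (subst σ φ) (subst σ ψ)
  | .imp φ ψ => .imp (subst σ φ) (subst σ ψ)

/-- The relation `L` (between sets of formulas and formulas) is an axiomatic extension of MTL: for
some set `S` of formulas, closed under substitution, `L` is the consequence relation of MTL with the
members of `S` added as axioms. -/
def IsAxExt (L : Set Fm → Fm → Prop) : Prop :=
  ∃ S : Set Fm, (∀ (σ : ℕ → Fm), ∀ φ ∈ S, subst σ φ ∈ S) ∧ ∀ Γ φ, L Γ φ ↔ MTLCons (Γ ∪ S) φ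

/-- The variables of a formula. -/
def vars : Fm → Finset ℕ
  | .var i => {i}
  | .zero => ∅
  | .one => ∅
  | .and φ ψ => vars φ ∪ vars ψ
  | .or φ ψ => vars φ ∪ vars ψ
  | .conj φ ψ => vars φ ∪ vars ψ
  | .imp φ ψ => vars φ ∪ vars ψ

/-- The deductive interpolation property: whenever `Γ ⊢_L φ` there is a set `Δ` of formulas in
variables common to `Γ` and `φ` with `Γ ⊢_L δ` for all `δ ∈ Δ` and `Δ ⊢_L φ`. -/
def DIP (L : Set Fm → Fm → Prop) : Prop :=
  ∀ (Γ : Set Fm) (φ : Fm), L Γ φ → ∃ Δ : Set Fm,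
    (∀ δ ∈ Δ, ∀ i ∈ vars δ, (∃ γ ∈ Γ, i ∈ vars γ) ∧ i ∈ vars φ) ∧ (∀ δ ∈ Δ, L Γ δ) ∧ L Δ φ

/-! ### Basic facts -/

theorem eval_congr {A : Type u} [MTLAlgebra A] {v w : ℕ → A} (φ : Fm)
    (h : ∀ i ∈ vars φ, v i = w i) : eval v φ = eval w φ := by
  induction φ with
  | var i => exact h i (by simp [vars])
  | zero => rfl
  | one => rfl
  | and φ ψ h1 h2 | or φ ψ h1 h2 | conj φ ψ h1 h2 | imp φ ψ h1 h2 =>
    simp only [vars, Finset.mem_union] at h
    simp only [eval, h1 fun i hi => h i (Or.inl hi), h2 fun i hi => h i (Or.inr hi)]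

theorem eval_subst {A : Type u} [MTLAlgebra A] (v : ℕ → A) (σ : ℕ → Fm) (φ : Fm) :
    eval v (subst σ φ) = eval (fun i => eval v (σ i)) φ := by
  induction φ with
  | var i => rfl
  | zero => rfl
  | one => rfl
  | and φ ψ h1 h2 | or φ ψ h1 h2 | conj φ ψ h1 h2 | imp φ ψ h1 h2 =>
    simp only [subst, eval, h1, h2]

section alg

variable {A : Type u} [MTLAlgebra A]

open MTLAlgebra

theorem le_one' (x : A) : x ≤ 1 := by rw [one_eq_top]; exact le_top

theorem res_eq_one {x y : A} : res x y = 1 ↔ x ≤ y := by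
  constructor
  · intro h
    have := (mul_le_iff 1 x y).2 h.ge
    rwa [one_mul] at this
  · intro h
    refine le_antisymm (le_one' _) ?_
    rw [← mul_le_iff, one_mul]
    exact h

theorem one_res (x : A) : res 1 x = x := by
  apply le_antisymm
  · have := (mul_le_iff (res 1 x) 1 x).2 le_rfl
    rwa [mul_one] at this
  · rw [← mul_le_iff, mul_one]

end alg

/-- `φ → (φ → (φ → ψ))` -/
def imp3 (φ ψ : Fm) : Fm := .imp φ (.imp φ (.imp φ ψ))

section fin

variable {B : Type} [MTLAlgebra B]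

open MTLAlgebra

theorem eval_imp3 (h3 : ∀ x : B, x ≠ 1 → x * x * x = ⊥) (v : ℕ → B) (φ ψ : Fm) :
    eval v (imp3 φ ψ) = 1 ↔ (eval v φ = 1 → eval v ψ = 1) := by
  by_cases h : eval v φ = 1
  · simp [imp3, eval, h, one_res]
  · simp only [h, false_imp_iff, iff_true]
    simp only [imp3, eval]
    rw [res_eq_one, ← mul_le_iff, ← mul_le_iff, h3 _ h]
    exact bot_le

theorem eval_foldr (h3 : ∀ x : B, x ≠ 1 → x * x * x = ⊥) (v : ℕ → B) (l : List Fm)
    (ψ : Fm) : eval v (l.foldr imp3 ψ) = 1 ↔ ((∀ γ ∈ l, eval v γ = 1) → eval v ψ = 1) := by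
  induction l with
  | nil => simp
  | cons a l ih =>
    rw [List.foldr_cons, eval_imp3 h3, ih]
    simp only [List.mem_cons, forall_eq_or_imp, and_imp]

theorem foldr_one {A : Type} [MTLAlgebra A] (v : ℕ → A) (l : List Fm) (ψ : Fm)
    (h : eval v (l.foldr imp3 ψ) = 1) (hl : ∀ γ ∈ l, eval v γ = 1) : eval v ψ = 1 := by
  induction l with
  | nil => simpa using h
  | cons a l ih =>
    rw [List.foldr_cons] at h
    have ha := hl a (by simp)
    simp only [imp3, eval, ha, one_res] at h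
    exact ih h fun γ hγ => hl γ (by simp [hγ])

theorem vars_foldr (l : List Fm) (ψ : Fm) (i : ℕ) (h : i ∈ vars (l.foldr imp3 ψ)) :
    (∃ γ ∈ l, i ∈ vars γ) ∨ i ∈ vars ψ := by
  induction l with
  | nil => exact Or.inr (by simpa using h)
  | cons a l ih =>
    simp only [List.foldr_cons, imp3, vars, Finset.mem_union] at h
    rcases h with h | h | h | h
    · exact Or.inl ⟨a, by simp, h⟩
    · exact Or.inl ⟨a, by simp, h⟩
    · exact Or.inl ⟨a, by simp, h⟩
    · rcases ih h with ⟨γ, h1, h2⟩ | h1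
      · exact Or.inl ⟨γ, by simp [h1], h2⟩
      · exact Or.inr h1

end fin

end Pool.Agent.R620.MTL
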