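import Pool.Agent.R620.MTL.Defs

/-! # The chains `El I` -/

set_option autoImplicit false

namespace Pool.Agent.R620.MTL

/-- Positions: a bottom position and the positions `(i, k)`, `i ∈ I`, `k ∈ ℤ`, ordered
lexicographically. -/
inductive X (I : Type) : Type
  | bot : X I
  | pt (i : I) (k : ℤ) : X I

namespace X

variable {I : Type}

/-- embedding into a lexicographic product -/
def toW : X I → WithBot (I ×ₗ ℤ)
  | bot => ⊥
  | pt i k => ((toLex (i, k) : I ×ₗ ℤ) : WithBot (I ×ₗ ℤ))

theorem toW_inj : Function.Injective (toW : X I → _) := by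
  intro x y h
  cases x <;> cases y <;> simp_all [toW, Prod.ext_iff]

noncomputable instance [LinearOrder I] : LinearOrder (X I) := LinearOrder.lift' toW toW_inj

variable [LinearOrder I]

theorem le_def (x y : X I) : x ≤ y ↔ x.toW ≤ y.toW := Iff.rfl
theorem lt_def (x y : X I) : x < y ↔ x.toW < y.toW := Iff.rfl

@[simp] theorem bot_le' (x : X I) : X.bot ≤ x := by rw [le_def]; exact bot_le
@[simp] theorem pt_le_bot (i : I) (k : ℤ) : ¬ X.pt i k ≤ X.bot := by
  rw [le_def]; simp [toW]
@[simp] theorem pt_le_pt (i j : I) (k l : ℤ) : X.pt i k ≤ X.pt j l ↔ i < j ∨ (i = j ∧ k ≤ l) := by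
  rw [le_def]; simp [toW, Prod.Lex.toLex_le_toLex]
@[simp] theorem not_lt_bot (x : X I) : ¬ x < X.bot := by
  rw [not_lt]; exact bot_le' x
@[simp] theorem bot_lt_pt (i : I) (k : ℤ) : X.bot < X.pt i k := by
  rw [← not_le]; simp
@[simp] theorem pt_lt_pt (i j : I) (k l : ℤ) : X.pt i k < X.pt j l ↔ i < j ∨ (i = j ∧ k < l) := by
  rw [lt_def]; simp [toW, Prod.Lex.toLex_lt_toLex]

end X

namespace X

variable {I : Type}

/-- The shift inside the blocks. -/
def shift (a : ℤ) : X I → X I
  | bot => bot
  | pt i k => pt i (k + a)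

@[simp] theorem shift_bot (a : ℤ) : shift a (X.bot : X I) = X.bot := rfl
@[simp] theorem shift_pt (a : ℤ) (i : I) (k : ℤ) : shift a (X.pt i k) = X.pt i (k + a) := rfl

theorem shift_shift (a b : ℤ) (x : X I) : shift a (shift b x) = shift (b + a) x := by
  cases x <;> simp [add_assoc]

theorem shift_zero (x : X I) : shift 0 x = x := by
  cases x <;> simp

theorem shift_le [LinearOrder I] (a : ℤ) (x y : X I) : shift a x ≤ shift a y ↔ x ≤ y := by
  cases x <;> cases y <;> simp

/-- marks on positions -/
def mk (μ : I → ℤ → Prop) : X I → Prop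
  | bot => False
  | pt i k => μ i k

@[simp] theorem mk_bot (μ : I → ℤ → Prop) : ¬ mk μ X.bot := id
@[simp] theorem mk_pt (μ : I → ℤ → Prop) (i : I) (k : ℤ) : mk μ (X.pt i k) ↔ μ i k := Iff.rfl

open Classical in
/-- The second component of a product. -/
noncomputable def rr (μ : I → ℤ → Prop) (x y : X I) : Fin 3 :=
  if x = y ∨ y = shift 1 x ∨ x = shift 1 y then 2
  else if (y = shift 2 x ∧ mk μ x) ∨ (x = shift 2 y ∧ mk μ y) then 1 else 0

theorem rr_comm (μ : I → ℤ → Prop) (x y : X I) : rr μ x y = rr μ y x := by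
  unfold rr
  congr 1
  · simp only [eq_iff_iff]; tauto
  · congr 1
    simp only [eq_iff_iff]; tauto

/-- The first component of the residual. -/
noncomputable def R [LinearOrder I] (μ : I → ℤ → Prop) (x y : X I) (s : Fin 3) : X I :=
  open Classical in
  match x, y with
  | _, bot => bot
  | bot, pt j l => if s = 0 then pt j l else pt j (l + 1)
  | pt i k, pt j l =>
    if j < i then bot
    else if i < j then (if s = 0 then pt j l else pt j (l + 1))
    else if l < k then bot
    else if l = k then
      (if s = 0 then bot else if s = 1 ∧ μ i (k - 2) then pt i (k - 2) else pt i (k - 1))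
    else if l = k + 1 then pt i (k + 1)
    else if l = k + 2 then (if s = 0 ∨ (s = 1 ∧ μ i k) then pt i (k + 2) else pt i (k + 3))
    else (if s = 0 then pt i l else pt i (l + 1))

/-- `(x, r)` comes at or after `(y, s)`. -/
def ge3 [LinearOrder I] (x : X I) (r : Fin 3) (y : X I) (s : Fin 3) : Prop :=
  y < x ∨ (y = x ∧ s ≤ r)

theorem fin3 (s : Fin 3) : s = 0 ∨ s = 1 ∨ s = 2 := by
  fin_cases s <;> simp

theorem rr_bb (μ : I → ℤ → Prop) : rr μ (bot : X I) bot = 2 := by simp [rr]
theorem rr_bp (μ : I → ℤ → Prop) (i : I) (k : ℤ) : rr μ bot (pt i k) = 0 := by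
  simp [rr]
theorem rr_pb (μ : I → ℤ → Prop) (i : I) (k : ℤ) : rr μ (pt i k) bot = 0 := by
  simp [rr]
theorem rr_ne (μ : I → ℤ → Prop) (i j : I) (k l : ℤ) (h : i ≠ j) :
    rr μ (pt i k) (pt j l) = 0 := by
  simp [rr, h, h.symm]

variable [LinearOrder I]

theorem gal_bot (μ : I → ℤ → Prop) (y z : X I) (s : Fin 3) :
    ge3 (max bot z) (rr μ bot z) y s ↔ R μ bot y s ≤ z := by
  have hs : s = 0 ∨ s = 1 ∨ s = 2 := fin3 s
  cases y with
  | bot =>
    cases z with
    | bot => rw [rr_bb]; rcases hs with rfl | rfl | rfl <;> simp [ge3, R]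
    | pt j l => simp [ge3, R]
  | pt i k =>
    cases z with
    | bot => rcases hs with rfl | rfl | rfl <;> simp [ge3, R]
    | pt j l =>
      rw [rr_bp]
      have : max bot (pt j l) = pt j l := max_eq_right (bot_le' _)
      rw [this]
      rcases hs with rfl | rfl | rfl
      · simp [ge3, R]
        constructor
        · rintro ((h | ⟨h, h'⟩) | ⟨h, h'⟩)
          · exact Or.inl h
          · exact Or.inr ⟨h, h'.le⟩
          · exact Or.inr ⟨h, h'.le⟩
        · rintro (h | ⟨h, h'⟩)
          · exact Or.inl (Or.inl h)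
          · rcases h'.lt_or_eq with h2 | h2
            · exact Or.inl (Or.inr ⟨h, h2⟩)
            · exact Or.inr ⟨h, h2⟩
      · simp [ge3, R]
      · simp [ge3, R]

theorem max_same (i : I) (k m : ℤ) : max (pt i k) (pt i m) = pt i (max k m) := by
  rcases le_total k m with h | h
  · rw [max_eq_right h, max_eq_right (by simp [h])]
  · rw [max_eq_left h, max_eq_left (by simp [h])]

omit [LinearOrder I] in
open Classical in
theorem rr_same (μ : I → ℤ → Prop) (i : I) (k m : ℤ) :
    rr μ (pt i k) (pt i m) = if k = m ∨ m = k + 1 ∨ k = m + 1 then 2 else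
      if (m = k + 2 ∧ μ i k) ∨ (m = k - 2 ∧ μ i (k - 2)) then 1 else 0 := by
  simp only [rr, shift_pt, pt.injEq, true_and, mk_pt]
  congr 2
  rw [eq_iff_iff]
  constructor
  · rintro (h | ⟨h, h'⟩)
    · exact Or.inl h
    · obtain rfl : m = k - 2 := by omega
      exact Or.inr ⟨rfl, h'⟩
  · rintro (h | ⟨h, h'⟩)
    · exact Or.inl h
    · subst h
      exact Or.inr ⟨by omega, h'⟩

theorem gal_same (μ : I → ℤ → Prop) (i : I) (k l m : ℤ) (s : Fin 3) :
    ge3 (max (pt i k) (pt i m)) (rr μ (pt i k) (pt i m)) (pt i l) s ↔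
      R μ (pt i k) (pt i l) s ≤ pt i m := by
  rw [max_same, rr_same]
  have h1 : ((1 : Fin 3) ≤ 2) ↔ True := by decide
  have h2 : ((1 : Fin 3) ≤ 1) ↔ True := by decide
  have h3 : ((1 : Fin 3) ≤ 0) ↔ False := by decide
  have h4 : ((2 : Fin 3) ≤ 2) ↔ True := by decide
  have h5 : ((2 : Fin 3) ≤ 1) ↔ False := by decide
  have h6 : ((2 : Fin 3) ≤ 0) ↔ False := by decide
  have h7 : ((0 : Fin 3) ≤ 2) ↔ True := by decide
  have h8 : ((0 : Fin 3) ≤ 1) ↔ True := by decide
  have h9 : ((0 : Fin 3) ≤ 0) ↔ True := by decide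
  have g1 : ((1 : Fin 3) = 0) ↔ False := by decide
  have g2 : ((2 : Fin 3) = 0) ↔ False := by decide
  have g3 : ((2 : Fin 3) = 1) ↔ False := by decide
  have g4 : ((0 : Fin 3) = 1) ↔ False := by decide
  simp only [ge3, R, pt.injEq, true_and, pt_lt_pt, lt_irrefl, false_or, if_false]
  generalize μ i k = A
  generalize μ i (k - 2) = B
  rcases fin3 s with rfl | rfl | rfl <;> by_cases hA : A <;> by_cases hB : B <;>
    simp only [hA, hB, and_true, and_false, or_false, g1, g2, g3, g4, false_and, false_or,
      true_or, or_true, true_and, if_false, if_true] <;>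
    split_ifs <;>
    simp only [h1, h2, h3, h4, h5, h6, h7, h8, h9, and_true, and_false, or_false, bot_le',
      pt_le_pt, lt_irrefl, false_or, true_and, iff_true] <;> omega

theorem le_zero3 (s : Fin 3) : s ≤ 0 ↔ s = 0 := by
  rcases fin3 s with rfl | rfl | rfl <;> decide

theorem R_same (μ : I → ℤ → Prop) (i : I) (k l : ℤ) (s : Fin 3) :
    (R μ (pt i k) (pt i l) s = bot ∧ (l < k ∨ (l = k ∧ s = 0))) ∨
      ((∃ q, R μ (pt i k) (pt i l) s = pt i q) ∧ ¬ (l < k ∨ (l = k ∧ s = 0))) := by
  simp only [R, lt_irrefl, if_false]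
  by_cases h1 : l < k
  · simp [h1]
  by_cases h2 : l = k
  · subst h2
    by_cases hs : s = 0
    · simp [hs]
    · right
      refine ⟨?_, by simp [hs]⟩
      simp only [lt_irrefl, if_false, if_true, hs]
      split_ifs
      · exact ⟨_, rfl⟩
      · exact ⟨_, rfl⟩
  · right
    refine ⟨?_, by tauto⟩
    rw [if_neg h1, if_neg h2]
    split_ifs <;> exact ⟨_, rfl⟩

theorem gal (μ : I → ℤ → Prop) (x y z : X I) (s : Fin 3) :
    ge3 (max x z) (rr μ x z) y s ↔ R μ x y s ≤ z := by
  cases x with
  | bot => exact gal_bot μ y z s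
  | pt i k =>
    cases y with
    | bot =>
      have h1 : R μ (pt i k) bot s = bot := rfl
      rw [h1]
      simp only [bot_le', iff_true]
      exact Or.inl (lt_of_lt_of_le (bot_lt_pt i k) (le_max_left _ _))
    | pt j l =>
      rcases lt_trichotomy j i with h | h | h
      · have h1 : R μ (pt i k) (pt j l) s = bot := by simp [R, h]
        rw [h1]
        simp only [bot_le', iff_true]
        refine Or.inl (lt_of_lt_of_le ?_ (le_max_left _ _))
        simp [h]
      · subst h
        have hm : ∀ z : X I, (∀ q, ¬ pt j q ≤ z) → rr μ (pt j k) z = 0 →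
            (ge3 (max (pt j k) z) (rr μ (pt j k) z) (pt j l) s ↔
              R μ (pt j k) (pt j l) s ≤ z) := by
          intro z hz hr
          rw [hr, max_eq_left (le_of_not_ge (hz k))]
          have e1 : ge3 (pt j k) 0 (pt j l) s ↔ (l < k ∨ (l = k ∧ s = 0)) := by
            simp [ge3, le_zero3]
          rw [e1]
          rcases R_same μ j k l s with ⟨h1, h2⟩ | ⟨⟨q, h1⟩, h2⟩
          · rw [h1]; simp [h2]
          · rw [h1]; simp only [h2, false_iff]; exact hz q
        cases z with
        | bot => exact hm _ (by simp) (rr_pb _ _ _)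
        | pt m p =>
          rcases lt_trichotomy m j with h | h | h
          · refine hm _ (fun q => ?_) (rr_ne _ _ _ _ _ h.ne')
            simp only [pt_le_pt, not_or, not_and]
            exact ⟨not_lt_of_gt h, fun e => absurd e.symm h.ne⟩
          · subst h
            exact gal_same μ m k l p s
          · have h0 : pt j k ≤ pt m p := by simp [h]
            rw [max_eq_right h0]
            have e1 : ge3 (pt m p) (rr μ (pt j k) (pt m p)) (pt j l) s :=
              Or.inl (by simp [h])
            simp only [e1, true_iff]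
            rcases R_same μ j k l s with ⟨h1, _⟩ | ⟨⟨q, h1⟩, _⟩
            · rw [h1]; simp
            · rw [h1]; simp [h]
      · have hR : R μ (pt i k) (pt j l) s = R μ bot (pt j l) s := by
          simp [R, h, not_lt_of_gt h]
        rw [hR, ← gal_bot]
        have hb : ∀ z : X I, max bot z = z := fun z => max_eq_right (bot_le' z)
        rw [hb]
        have hm : ∀ z : X I, (∀ q, ¬ pt j q ≤ z) →
            (ge3 (max (pt i k) z) (rr μ (pt i k) z) (pt j l) s ↔
              ge3 z (rr μ bot z) (pt j l) s) := by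
          intro z hz
          have e1 : ¬ ge3 z (rr μ bot z) (pt j l) s := by
            rintro (h1 | ⟨h1, _⟩)
            · exact hz _ h1.le
            · exact hz _ h1.le
          have e2 : ¬ ge3 (max (pt i k) z) (rr μ (pt i k) z) (pt j l) s := by
            have : ¬ (pt j l ≤ max (pt i k) z) := by
              rw [le_max_iff]
              rintro (h1 | h1)
              · simp only [pt_le_pt] at h1
                rcases h1 with h1 | ⟨h1, _⟩
                · exact absurd h1 (not_lt_of_gt h)
                · exact absurd h1.symm h.ne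
              · exact hz _ h1
            rintro (h1 | ⟨h1, _⟩)
            · exact this h1.le
            · exact this h1.le
          simp [e1, e2]
        cases z with
        | bot => exact hm _ (by simp)
        | pt m p =>
          rcases lt_or_ge i m with h2 | h2
          · have h0 : pt i k ≤ pt m p := by simp [h2]
            rw [max_eq_right h0, rr_ne _ _ _ _ _ h2.ne, rr_bp]
          · refine hm _ fun q => ?_
            have h3 := lt_of_le_of_lt h2 h
            simp only [pt_le_pt, not_or, not_and]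
            exact ⟨not_lt_of_gt h3, fun e => absurd e.symm h3.ne⟩

end X

/-- The elements of the chain. -/
inductive El (I : Type) : Type
  | zero : El I
  | n (x : X I) (r : Fin 3) : El I
  | u (x : X I) : El I
  | one : El I

namespace El

variable {I : Type}

/-- embedding into a lexicographic product -/
def toW : El I → ℕ ×ₗ ((X I)ᵒᵈ ×ₗ (Fin 3)ᵒᵈ)
  | zero => toLex (0, toLex (OrderDual.toDual X.bot, OrderDual.toDual 0))
  | n x r => toLex (1, toLex (OrderDual.toDual x, OrderDual.toDual r))
  | u x => toLex (2, toLex (OrderDual.toDual x, OrderDual.toDual 0))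
  | one => toLex (3, toLex (OrderDual.toDual X.bot, OrderDual.toDual 0))

theorem toW_inj : Function.Injective (toW : El I → _) := by
  intro x y h
  cases x <;> cases y <;> simp_all [toW, Prod.ext_iff]

noncomputable instance [LinearOrder I] : LinearOrder (El I) := LinearOrder.lift' toW toW_inj

variable [LinearOrder I]

theorem le_def (x y : El I) : x ≤ y ↔ x.toW ≤ y.toW := Iff.rfl

@[simp] theorem zero_le' (x : El I) : El.zero ≤ x := by
  rw [le_def]
  cases x <;> simp [toW, Prod.Lex.toLex_le_toLex]

@[simp] theorem le_one' (x : El I) : x ≤ El.one := by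
  rw [le_def]
  cases x <;> simp [toW, Prod.Lex.toLex_le_toLex]

@[simp] theorem n_le_zero (x : X I) (r : Fin 3) : ¬ El.n x r ≤ El.zero := by
  rw [le_def]; simp [toW, Prod.Lex.toLex_le_toLex]

@[simp] theorem u_le_zero (x : X I) : ¬ El.u x ≤ El.zero := by
  rw [le_def]; simp [toW, Prod.Lex.toLex_le_toLex]

@[simp] theorem one_le_zero : ¬ (El.one : El I) ≤ El.zero := by
  rw [le_def]; simp [toW, Prod.Lex.toLex_le_toLex]

@[simp] theorem u_le_n (x y : X I) (r : Fin 3) : ¬ El.u x ≤ El.n y r := by
  rw [le_def]; simp [toW, Prod.Lex.toLex_le_toLex]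

@[simp] theorem one_le_n (y : X I) (r : Fin 3) : ¬ El.one ≤ El.n y r := by
  rw [le_def]; simp [toW, Prod.Lex.toLex_le_toLex]

@[simp] theorem one_le_u (y : X I) : ¬ El.one ≤ El.u y := by
  rw [le_def]; simp [toW, Prod.Lex.toLex_le_toLex]

@[simp] theorem n_le_u (x y : X I) (r : Fin 3) : El.n x r ≤ El.u y := by
  rw [le_def]; simp [toW, Prod.Lex.toLex_le_toLex]

@[simp] theorem u_le_u (x y : X I) : El.u x ≤ El.u y ↔ y ≤ x := by
  rw [le_def]
  simp only [toW, Prod.Lex.toLex_le_toLex, lt_irrefl, false_or, true_and, le_refl, and_true,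
    OrderDual.toDual_lt_toDual, OrderDual.toDual_inj]
  rw [le_iff_lt_or_eq, @eq_comm _ x y]

@[simp] theorem n_le_n (x y : X I) (r s : Fin 3) : El.n x r ≤ El.n y s ↔ X.ge3 x r y s := by
  rw [le_def]; simp [toW, Prod.Lex.toLex_le_toLex, X.ge3, eq_comm]

/-- The multiplication. -/
noncomputable def mul (μ : I → ℤ → Prop) : El I → El I → El I
  | one, y => y
  | x, one => x
  | u x, u y => n (max x y) (X.rr μ x y)
  | _, _ => zero

/-- The residuum. -/
noncomputable def res (μ : I → ℤ → Prop) : El I → El I → El I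
  | one, y => y
  | _, one => one
  | zero, _ => one
  | u x, u y => if y ≤ x then one else u X.bot
  | u x, n y s => u (X.R μ x y s)
  | u _, zero => n X.bot 0
  | n _ _, u _ => one
  | n x r, n y s => open Classical in if X.ge3 x r y s then one else u X.bot
  | n _ _, zero => u X.bot

theorem mul_comm' (μ : I → ℤ → Prop) (x y : El I) : mul μ x y = mul μ y x := by
  cases x <;> cases y <;> simp [mul, max_comm, X.rr_comm]

theorem mul_assoc' (μ : I → ℤ → Prop) (x y z : El I) :
    mul μ (mul μ x y) z = mul μ x (mul μ y z) := by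
  cases x <;> cases y <;> cases z <;> simp [mul]

theorem mul_le_iff' (μ : I → ℤ → Prop) (x y z : El I) : mul μ x y ≤ z ↔ x ≤ res μ y z := by
  cases x <;> cases y <;> cases z <;> simp [mul, res]
  case n.n.n => split_ifs <;> simp
  case n.u.zero =>
    rename_i x r y
    cases x with
    | bot => exact Or.inr ⟨rfl, by simp⟩
    | pt i k => exact Or.inl (by simp)
  case n.u.u => split_ifs <;> simp
  case u.n.n => split_ifs <;> simp
  case u.u.n =>
    rename_i x y z r
    rw [max_comm, X.rr_comm]
    exact X.gal μ y z x r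
  case u.u.u => split_ifs <;> simp
  case one.n.n => split_ifs with h <;> simp [h]
  case one.u.u => split_ifs with h <;> simp [h]

theorem res_total (μ : I → ℤ → Prop) (x y : El I) (h : x ≤ y) : res μ x y = one := by
  have h1 : one ≤ res μ x y := by
    rw [← mul_le_iff']
    exact h
  exact le_antisymm (le_one' _) h1

/-- The MTL-algebra. -/
@[reducible] noncomputable def alg (μ : I → ℤ → Prop) : MTLAlgebra (El I) where
  toLattice := inferInstanceAs (Lattice (El I))
  toBoundedOrder :=
    { top := one, bot := zero, le_top := le_one', bot_le := zero_le' }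
  mul := mul μ
  one := one
  mul_assoc := mul_assoc' μ
  one_mul := fun a => rfl
  mul_one := fun a => by cases a <;> rfl
  mul_comm := mul_comm' μ
  res := res μ
  mul_le_iff := mul_le_iff' μ
  one_eq_top := rfl
  prelin := fun x y => by
    rcases le_total x y with h | h
    · change res μ x y ⊔ res μ y x = one
      rw [res_total μ x y h]
      exact le_antisymm (le_one' _) le_sup_left
    · change res μ x y ⊔ res μ y x = one
      rw [res_total μ y x h]
      exact le_antisymm (le_one' _) le_sup_right

/-- Evaluation in the algebra. -/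
noncomputable def ev (μ : I → ℤ → Prop) (v : ℕ → El I) : Fm → El I
  | .var i => v i
  | .zero => zero
  | .one => one
  | .and φ ψ => min (ev μ v φ) (ev μ v ψ)
  | .or φ ψ => max (ev μ v φ) (ev μ v ψ)
  | .conj φ ψ => mul μ (ev μ v φ) (ev μ v ψ)
  | .imp φ ψ => res μ (ev μ v φ) (ev μ v ψ)

theorem eval_alg (μ : I → ℤ → Prop) (v : ℕ → El I) (φ : Fm) :
    @eval (El I) (alg μ) v φ = ev μ v φ := by
  induction φ with
  | var i => rfl
  | zero => rfl
  | one => rfl
  | and φ ψ h1 h2 => simp only [eval, ev, h1, h2]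
  | or φ ψ h1 h2 => simp only [eval, ev, h1, h2]
  | conj φ ψ h1 h2 => simp only [eval, ev, h1, h2]; rfl
  | imp φ ψ h1 h2 => simp only [eval, ev, h1, h2]; rfl

theorem res_eq_one' (μ : I → ℤ → Prop) (x y : El I) : res μ x y = one ↔ x ≤ y :=
  @res_eq_one (El I) (alg μ) x y

theorem cube (μ : I → ℤ → Prop) (x : El I) (h : x ≠ one) : mul μ (mul μ x x) x = zero := by
  cases x <;> simp_all [mul]

end El

end Pool.Agent.R620.MTL
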