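import Pool.Agent.R620.MTL.Lim

/-! # Embeddings and amalgamation -/

set_option autoImplicit false

namespace Pool.Agent.R620.MTL

/-! ### Embeddings induced by embeddings of the block orders -/

section emb

variable {I I' : Type} [LinearOrder I] [LinearOrder I']

/-- Map on positions. -/
def eX (e : I → I') (off : I → ℤ) : X I → X I'
  | .bot => .bot
  | .pt i k => .pt (e i) (k + off i)

/-- Map on elements. -/
def eE (e : I → I') (off : I → ℤ) : El I → El I'
  | .zero => .zero
  | .n x r => .n (eX e off x) r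
  | .u x => .u (eX e off x)
  | .one => .one

variable {e : I → I'} {off : I → ℤ} {μ : I → ℤ → Prop} {μ' : I' → ℤ → Prop}

theorem eX_le (he : StrictMono e) (x y : X I) : eX e off x ≤ eX e off y ↔ x ≤ y := by
  cases x with
  | bot => simp [eX]
  | pt i k =>
    cases y with
    | bot => simp [eX]
    | pt j l =>
      simp only [eX, X.pt_le_pt, he.lt_iff_lt, he.injective.eq_iff]
      constructor
      · rintro (h | ⟨rfl, h⟩)
        · exact Or.inl h
        · exact Or.inr ⟨rfl, by omega⟩
      · rintro (h | ⟨rfl, h⟩)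
        · exact Or.inl h
        · exact Or.inr ⟨rfl, by omega⟩

theorem eX_inj (he : StrictMono e) (x y : X I) : eX e off x = eX e off y ↔ x = y := by
  rw [le_antisymm_iff, eX_le he, eX_le he, ← le_antisymm_iff]

theorem eX_shift (a : ℤ) (x : X I) : eX e off (X.shift a x) = X.shift a (eX e off x) := by
  cases x with
  | bot => rfl
  | pt i k => simp only [eX, X.shift_pt]; congr 1; ring

theorem eX_mk (hμ : ∀ i k, μ' (e i) (k + off i) ↔ μ i k) (x : X I) :
    X.mk μ' (eX e off x) ↔ X.mk μ x := by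
  cases x with
  | bot => simp [eX]
  | pt i k => simp only [eX, X.mk_pt]; exact hμ i k

theorem eX_max (he : StrictMono e) (x y : X I) :
    eX e off (max x y) = max (eX e off x) (eX e off y) :=
  Monotone.map_max (fun x y h => (eX_le he x y).2 h)

theorem eX_rr (he : StrictMono e) (hμ : ∀ i k, μ' (e i) (k + off i) ↔ μ i k) (x y : X I) :
    X.rr μ' (eX e off x) (eX e off y) = X.rr μ x y := by
  have c1 : (eX e off x = eX e off y ∨ eX e off y = X.shift 1 (eX e off x) ∨
      eX e off x = X.shift 1 (eX e off y)) ↔ (x = y ∨ y = X.shift 1 x ∨ x = X.shift 1 y) := by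
    simp only [← eX_shift, eX_inj he]
  have c2 : ((eX e off y = X.shift 2 (eX e off x) ∧ X.mk μ' (eX e off x)) ∨
      (eX e off x = X.shift 2 (eX e off y) ∧ X.mk μ' (eX e off y))) ↔
      ((y = X.shift 2 x ∧ X.mk μ x) ∨ (x = X.shift 2 y ∧ X.mk μ y)) := by
    simp only [← eX_shift, eX_inj he, eX_mk hμ]
  unfold X.rr
  by_cases h1 : x = y ∨ y = X.shift 1 x ∨ x = X.shift 1 y
  · rw [if_pos h1, if_pos (c1.2 h1)]
  · rw [if_neg h1, if_neg (fun h => h1 (c1.1 h))]
    by_cases h2 : (y = X.shift 2 x ∧ X.mk μ x) ∨ (x = X.shift 2 y ∧ X.mk μ y)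
    · rw [if_pos h2, if_pos (c2.2 h2)]
    · rw [if_neg h2, if_neg (fun h => h2 (c2.1 h))]

theorem eX_R (he : StrictMono e) (hμ : ∀ i k, μ' (e i) (k + off i) ↔ μ i k) (x y : X I)
    (s : Fin 3) : X.R μ' (eX e off x) (eX e off y) s = eX e off (X.R μ x y s) := by
  cases y with
  | bot => cases x <;> rfl
  | pt j l =>
    cases x with
    | bot =>
      simp only [X.R, eX]
      split_ifs
      · rfl
      · simp only [eX]; congr 1; ring
    | pt i k =>
      rcases lt_trichotomy j i with h | h | h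
      · have h' := he h
        simp [X.R, eX, h, h']
      · subst h
        have h1 : μ' (e j) (k + off j) ↔ μ j k := hμ j k
        have h2 : μ' (e j) (k + off j - 2) ↔ μ j (k - 2) := by
          rw [← hμ j (k - 2)]
          have : k + off j - 2 = k - 2 + off j := by ring
          rw [this]
        have c1 : l + off j < k + off j ↔ l < k := by omega
        have c2 : l + off j = k + off j ↔ l = k := by omega
        have c3 : l + off j = k + off j + 1 ↔ l = k + 1 := by omega
        have c4 : l + off j = k + off j + 2 ↔ l = k + 2 := by omega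
        simp only [X.R, eX, lt_irrefl, if_false, c1, c2, c3, c4]
        split_ifs <;> first | rfl | (simp only [eX]; congr 1; ring; done) | (exfalso; tauto)
      · have h' := he h
        simp only [X.R, eX, h, h', not_lt_of_gt h, not_lt_of_gt h', if_false, if_true]
        split_ifs
        · rfl
        · simp only [eX]; congr 1; ring

theorem eE_le (he : StrictMono e) (x y : El I) : eE e off x ≤ eE e off y ↔ x ≤ y := by
  have h1 : ∀ x y : X I, eX e off x < eX e off y ↔ x < y := by
    intro x y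
    rw [← not_le, ← not_le, eX_le he]
  cases x <;> cases y <;> simp [eE, eX_le he, X.ge3, h1, eX_inj he]

theorem eE_mul (he : StrictMono e) (hμ : ∀ i k, μ' (e i) (k + off i) ↔ μ i k) (x y : El I) :
    El.mul μ' (eE e off x) (eE e off y) = eE e off (El.mul μ x y) := by
  cases x <;> cases y <;> simp [eE, El.mul, eX_max he, eX_rr he hμ]

theorem eE_res (he : StrictMono e) (hμ : ∀ i k, μ' (e i) (k + off i) ↔ μ i k) (x y : El I) :
    El.res μ' (eE e off x) (eE e off y) = eE e off (El.res μ x y) := by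
  have h1 : ∀ x y : X I, eX e off x < eX e off y ↔ x < y := by
    intro x y
    rw [← not_le, ← not_le, eX_le he]
  have h2 : ∀ (x y : X I) (r s : Fin 3), X.ge3 (eX e off x) r (eX e off y) s ↔ X.ge3 x r y s := by
    intro x y r s
    simp only [X.ge3, h1, eX_inj he]
  cases x with
  | zero => cases y <;> rfl
  | one => cases y <;> rfl
  | n x r =>
    cases y with
    | zero => rfl
    | one => rfl
    | u y => rfl
    | n y s =>
      simp only [eE, El.res]
      by_cases h : X.ge3 x r y s
      · rw [if_pos h, if_pos ((h2 _ _ _ _).2 h)]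
      · rw [if_neg h, if_neg (fun h' => h ((h2 _ _ _ _).1 h'))]
        rfl
  | u x =>
    cases y with
    | zero => rfl
    | one => rfl
    | u y =>
      simp only [eE, El.res]
      by_cases h : y ≤ x
      · rw [if_pos h, if_pos ((eX_le he _ _).2 h)]
      · rw [if_neg h, if_neg (fun h' => h ((eX_le he _ _).1 h'))]
        rfl
    | n y s =>
      simp only [eE, El.res, eX_R he hμ]

theorem eE_ev (he : StrictMono e) (hμ : ∀ i k, μ' (e i) (k + off i) ↔ μ i k) (v : ℕ → El I)
    (φ : Fm) : El.ev μ' (fun i => eE e off (v i)) φ = eE e off (El.ev μ v φ) := by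
  have hmono : Monotone (eE e off) := fun x y h => (eE_le he x y).2 h
  induction φ with
  | var i => rfl
  | zero => rfl
  | one => rfl
  | and φ ψ h1 h2 => simp only [El.ev, h1, h2]; exact (hmono.map_min).symm
  | or φ ψ h1 h2 => simp only [El.ev, h1, h2]; exact (hmono.map_max).symm
  | conj φ ψ h1 h2 => simp only [El.ev, h1, h2]; exact eE_mul he hμ _ _
  | imp φ ψ h1 h2 => simp only [El.ev, h1, h2]; exact eE_res he hμ _ _

theorem eE_one (x : El I) : eE e off x = El.one ↔ x = El.one := by
  cases x <;> simp [eE]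

end emb

/-! ### Partial isomorphisms -/

/-- Partial isomorphisms. -/
structure PI {I I' : Type} [LinearOrder I] [LinearOrder I'] (μ : I → ℤ → Prop)
    (μ' : I' → ℤ → Prop) (Q : El I → El I' → Prop) : Prop where
  le : ∀ {a b a' b'}, Q a b → Q a' b' → (a ≤ a' ↔ b ≤ b')
  one : Q .one .one
  zero : Q .zero .zero
  mul : ∀ {a b a' b'}, Q a b → Q a' b' → Q (El.mul μ a a') (El.mul μ' b b')
  res : ∀ {a b a' b'}, Q a b → Q a' b' → Q (El.res μ a a') (El.res μ' b b')
  max : ∀ {a b a' b'}, Q a b → Q a' b' → Q (max a a') (max b b')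

namespace PI

variable {I I' : Type} [LinearOrder I] [LinearOrder I'] {μ : I → ℤ → Prop}
    {μ' : I' → ℤ → Prop} {Q : El I → El I' → Prop}

theorem symm (h : PI μ μ' Q) : PI μ' μ (fun a b => Q b a) where
  le h1 h2 := (h.le h1 h2).symm
  one := h.one
  zero := h.zero
  mul := h.mul
  res := h.res
  max := h.max

theorem eq (h : PI μ μ' Q) {a b a' b'} (h1 : Q a b) (h2 : Q a' b') : a = a' ↔ b = b' := by
  rw [le_antisymm_iff, le_antisymm_iff, h.le h1 h2, h.le h2 h1]

theorem mul_self (μ : I → ℤ → Prop) (x : X I) : El.mul μ (El.u x) (El.u x) = El.n x 2 := by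
  simp [El.mul, X.rr]

theorem coatom (h : PI μ μ' Q) {a b} (h1 : Q a b) (ha : a ≠ .zero) (ha' : a ≠ .one) :
    Q (.u .bot) (.u .bot) := by
  have hb : b ≠ .zero := fun e => ha ((h.eq h1 h.zero).2 e)
  have hb' : b ≠ .one := fun e => ha' ((h.eq h1 h.one).2 e)
  have h2 := h.max (h.res h1 h.zero) (h.res (h.res h1 h.zero) h.zero)
  have key : ∀ {I : Type} [LinearOrder I] (μ : I → ℤ → Prop) (a : El I), a ≠ .zero → a ≠ .one →
      Max.max (El.res μ a .zero) (El.res μ (El.res μ a .zero) .zero) = .u .bot := by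
    intro I _ μ a h1 h2
    cases a with
    | zero => exact absurd rfl h1
    | one => exact absurd rfl h2
    | n x r => exact max_eq_left (by simp [El.res])
    | u x => exact max_eq_right (by simp [El.res])
  rwa [key μ a ha ha', key μ' b hb hb'] at h2

theorem u_left (h : PI μ μ' Q) {x b} (h1 : Q (.u x) b) : ∃ x', b = .u x' := by
  have h2 := h.eq (h.mul h1 h1) h.zero
  have h3 := h.eq h1 h.one
  rw [mul_self] at h2
  cases b with
  | zero => simp [El.mul] at h2
  | n y r => simp [El.mul] at h2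
  | u y => exact ⟨y, rfl⟩
  | one => simp at h3

theorem u_bot (h : PI μ μ' Q) {x x'} (h1 : Q (.u x) (.u x')) : x = .bot ↔ x' = .bot := by
  have h2 := h.coatom h1 (by simp) (by simp)
  have h3 := h.eq h1 h2
  simpa using h3

theorem u_pt (h : PI μ μ' Q) {i k b} (h1 : Q (.u (.pt i k)) b) :
    ∃ i' k', b = .u (.pt i' k') := by
  obtain ⟨x', rfl⟩ := h.u_left h1
  have h2 := h.u_bot h1
  cases x' with
  | bot => simp at h2
  | pt i' k' => exact ⟨i', k', rfl⟩

theorem succ (h : PI μ μ' Q) {i k i' k'} (h1 : Q (.u (.pt i k)) (.u (.pt i' k'))) :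
    Q (.u (.pt i (k + 1))) (.u (.pt i' (k' + 1))) := by
  have h2 := h.coatom h1 (by simp) (by simp)
  have h3 := h.res h2 (h.mul h1 h1)
  rw [mul_self, mul_self] at h3
  simpa [El.res, X.R] using h3

theorem pred (h : PI μ μ' Q) {i k i' k'} (h1 : Q (.u (.pt i k)) (.u (.pt i' k'))) :
    Q (.u (.pt i (k - 1))) (.u (.pt i' (k' - 1))) := by
  have h3 := h.res h1 (h.mul h1 h1)
  rw [mul_self, mul_self] at h3
  simpa [El.res, X.R] using h3

theorem shift (h : PI μ μ' Q) {i k i' k'} (h1 : Q (.u (.pt i k)) (.u (.pt i' k'))) (a : ℤ) :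
    Q (.u (.pt i (k + a))) (.u (.pt i' (k' + a))) := by
  induction a using Int.induction_on with
  | zero => simpa using h1
  | succ n ih =>
    have := h.succ ih
    simpa [add_assoc] using this
  | pred n ih =>
    have := h.pred ih
    have e1 : k + (-(n : ℤ) - 1) = k + -(n : ℤ) - 1 := by ring
    have e2 : k' + (-(n : ℤ) - 1) = k' + -(n : ℤ) - 1 := by ring
    rw [e1, e2]
    exact this

theorem marks (h : PI μ μ' Q) {i k i' k'} (h1 : Q (.u (.pt i k)) (.u (.pt i' k'))) :
    μ i k ↔ μ' i' k' := by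
  have h2 := h.coatom h1 (by simp) (by simp)
  have h3 := h.shift h1 2
  have h4 := h.eq (h.mul h1 h3) (h.mul h2 h3)
  have key : ∀ {I : Type} [LinearOrder I] (μ : I → ℤ → Prop) (i : I) (k : ℤ),
      El.mul μ (.u (.pt i k)) (.u (.pt i (k + 2))) = El.mul μ (.u .bot) (.u (.pt i (k + 2))) ↔
        ¬ μ i k := by
    intro I _ μ i k
    simp only [El.mul, X.rr_bp]
    rw [X.max_same, max_eq_right (by omega : k ≤ k + 2),
      max_eq_right (X.bot_le' (X.pt i (k + 2))), X.rr_same]
    have e1 : ¬ (k = k + 2 ∨ k + 2 = k + 1 ∨ k = k + 2 + 1) := by omega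
    rw [if_neg e1]
    by_cases hm : μ i k
    · simp [hm]
    · rw [if_neg]
      · simp [hm]
      · rintro (⟨_, h⟩ | ⟨h, _⟩)
        · exact hm h
        · omega
  rw [key, key] at h4
  exact not_iff_not.1 h4

theorem sandwich (h : PI μ μ' Q) {x x' r b} (h0 : Q (.n x 0) (.n x' 0)) (h2 : Q (.n x 2) (.n x' 2))
    (h1 : Q (.n x r) b) : b = .n x' r := by
  rcases X.fin3 r with rfl | rfl | rfl
  · exact (h.eq h1 h0).1 rfl
  · have a1 : (El.n x 1) ≤ El.n x 0 := by rw [El.n_le_n]; exact Or.inr ⟨rfl, by decide⟩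
    have a2 : (El.n x 2) ≤ El.n x 1 := by rw [El.n_le_n]; exact Or.inr ⟨rfl, by decide⟩
    have b1 := (h.le h1 h0).1 a1
    have b2 := (h.le h2 h1).1 a2
    have c1 : b ≠ .n x' 0 := fun e => by
      have := (h.eq h1 h0).2 e
      simp at this
    have c2 : b ≠ .n x' 2 := fun e => by
      have := (h.eq h1 h2).2 e
      simp at this
    cases b with
    | zero => simp at b2
    | n y s =>
      rw [El.n_le_n] at b1 b2
      have hy : y = x' := by
        rcases b1 with b1 | ⟨b1, _⟩
        · rcases b2 with b2 | ⟨b2, _⟩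
          · exact absurd b1 (not_lt_of_gt b2)
          · exact b2
        · exact b1.symm
      subst hy
      rcases X.fin3 s with rfl | rfl | rfl
      · exact absurd rfl c1
      · rfl
      · exact absurd rfl c2
    | u y => simp at b1
    | one => simp at b1
  · exact (h.eq h1 h2).1 rfl

theorem n_of_u (h : PI μ μ' Q) {x x' r b} (h1 : Q (.u x) (.u x')) (h2 : Q (.n x r) b)
    (h3 : Q (.n x 0) (.n x' 0)) : b = .n x' r := by
  refine h.sandwich h3 ?_ h2
  have := h.mul h1 h1
  rwa [mul_self, mul_self] at this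

theorem n_bot (h : PI μ μ' Q) {r b} (h1 : Q (.n .bot r) b) : b = .n .bot r := by
  have h2 := h.coatom h1 (by simp) (by simp)
  refine h.n_of_u h2 h1 ?_
  have := h.res h2 h.zero
  simpa [El.res] using this

theorem n_pt (h : PI μ μ' Q) {i k r b} (h1 : Q (.n (.pt i k) r) b) :
    ∃ i' k', b = .n (.pt i' k') r ∧ Q (.u (.pt i k)) (.u (.pt i' k')) := by
  have h2 := h.coatom h1 (by simp) (by simp)
  have h3 := h.res h2 h1
  have h4 : ∃ i' k', Q (.u (.pt i k)) (.u (.pt i' k')) := by
    by_cases hr : r = 0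
    · have e1 : El.res μ (.u .bot) (.n (.pt i k) r) = .u (.pt i k) := by
        simp [El.res, X.R, hr]
      rw [e1] at h3
      obtain ⟨i', k', h4⟩ := h.u_pt h3
      rw [h4] at h3
      exact ⟨i', k', h3⟩
    · have e1 : El.res μ (.u .bot) (.n (.pt i k) r) = .u (.pt i (k + 1)) := by
        simp [El.res, X.R, hr]
      rw [e1] at h3
      obtain ⟨i', k', h4⟩ := h.u_pt h3
      rw [h4] at h3
      have := h.pred h3
      have e2 : k + 1 - 1 = k := by ring
      rw [e2] at this
      exact ⟨i', k' - 1, this⟩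
  obtain ⟨i', k', h4⟩ := h4
  refine ⟨i', k', h.n_of_u h4 h1 ?_, h4⟩
  have h5 := h.mul h2 h4
  simp only [El.mul, X.rr_bp] at h5
  rwa [max_eq_right (X.bot_le' _), max_eq_right (X.bot_le' _)] at h5

theorem lt_of (h : PI μ μ' Q) {i k j l i' k' j' l'} (h1 : Q (.u (.pt i k)) (.u (.pt i' k')))
    (h2 : Q (.u (.pt j l)) (.u (.pt j' l'))) (hij : i < j) : i' < j' := by
  have h3 := h.shift h2 (k' - l')
  have h4 := h.le h1 h3
  simp only [El.u_le_u, X.pt_le_pt] at h4
  have h5 : ¬ (j < i ∨ (j = i ∧ l + (k' - l') ≤ k)) := by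
    rintro (h6 | ⟨h6, _⟩)
    · exact absurd h6 (not_lt_of_gt hij)
    · exact absurd h6.symm hij.ne
  rw [iff_false_left h5] at h4
  push Not at h4
  rcases h4.1.lt_or_eq with h6 | h6
  · exact h6
  · exfalso
    have := h4.2 h6.symm
    omega

theorem eq_of (h : PI μ μ' Q) {i k l i' k' j' l'} (h1 : Q (.u (.pt i k)) (.u (.pt i' k')))
    (h2 : Q (.u (.pt i l)) (.u (.pt j' l'))) : i' = j' ∧ k' - k = l' - l := by
  have h3 := h.shift h1 (l - k)
  have e1 : k + (l - k) = l := by ring
  rw [e1] at h3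
  have h4 := (h.eq h3 h2).1 rfl
  simp only [El.u.injEq, X.pt.injEq] at h4
  exact ⟨h4.1, by omega⟩

end PI

end Pool.Agent.R620.MTL
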