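import Pool.Agent.R620.MTL.Ultra

/-! # Limits of elements and compactness -/

set_option autoImplicit false

namespace Pool.Agent.R620.MTL

open Filter

namespace Ultra

variable {T : Type} {U : Ultrafilter T} {I : T → Type} [∀ t, LinearOrder (I t)]

theorem lim_lt (f g : ∀ t, X (I t)) : lim U f < lim U g ↔ ∀ᶠ t in U, f t < g t := by
  simp only [← not_le]
  rw [lim_le, Ultrafilter.eventually_not]

theorem lim_ge3 (f g : ∀ t, X (I t)) (r s : Fin 3) :
    X.ge3 (lim U f) r (lim U g) s ↔ ∀ᶠ t in U, X.ge3 (f t) r (g t) s := by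
  unfold X.ge3
  rw [lim_lt, Ultrafilter.eventually_or, lim_eq]
  by_cases h : s ≤ r
  · simp [h]
  · simp [h, U.neBot.ne]

/-- `e` is the limit of the family `f`. -/
def Lim (f : ∀ t, El (I t)) : El (J U I) → Prop
  | .zero => ∀ᶠ t in U, f t = El.zero
  | .n y r => ∃ x : ∀ t, X (I t), lim U x = y ∧ ∀ᶠ t in U, f t = El.n (x t) r
  | .u y => ∃ x : ∀ t, X (I t), lim U x = y ∧ ∀ᶠ t in U, f t = El.u (x t)
  | .one => ∀ᶠ t in U, f t = El.one

theorem Lim.congr {f g : ∀ t, El (I t)} {e : El (J U I)} (h : Lim f e)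
    (hfg : ∀ᶠ t in U, g t = f t) : Lim g e := by
  cases e with
  | zero => exact hfg.mp (Eventually.mono h fun t h1 h2 => h2.trans h1)
  | n y r =>
    obtain ⟨x, h1, h2⟩ := h
    exact ⟨x, h1, hfg.mp (Eventually.mono h2 fun t h1 h2 => h2.trans h1)⟩
  | u y =>
    obtain ⟨x, h1, h2⟩ := h
    exact ⟨x, h1, hfg.mp (Eventually.mono h2 fun t h1 h2 => h2.trans h1)⟩
  | one => exact hfg.mp (Eventually.mono h fun t h1 h2 => h2.trans h1)

theorem exists_lim (f : ∀ t, El (I t)) : ∃ e : El (J U I), Lim f e := by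
  classical
  have h0 : ∀ᶠ t in U, f t = El.zero ∨ (∃ r : Fin 3, ∃ x, f t = El.n x r) ∨
      (∃ x, f t = El.u x) ∨ f t = El.one := by
    refine Eventually.of_forall fun t => ?_
    cases f t with
    | zero => exact Or.inl rfl
    | n x r => exact Or.inr (Or.inl ⟨r, x, rfl⟩)
    | u x => exact Or.inr (Or.inr (Or.inl ⟨x, rfl⟩))
    | one => exact Or.inr (Or.inr (Or.inr rfl))
  rw [Ultrafilter.eventually_or, Ultrafilter.eventually_or, Ultrafilter.eventually_or,
    Ultrafilter.eventually_exists_iff] at h0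
  rcases h0 with h | ⟨r, h⟩ | h | h
  · exact ⟨El.zero, h⟩
  · refine ⟨El.n (lim U fun t => if h : ∃ x, f t = El.n x r then h.choose else X.bot) r, _, rfl,
      h.mono fun t ht => ?_⟩
    rw [dif_pos ht]
    exact ht.choose_spec
  · refine ⟨El.u (lim U fun t => if h : ∃ x, f t = El.u x then h.choose else X.bot), _, rfl,
      h.mono fun t ht => ?_⟩
    rw [dif_pos ht]
    exact ht.choose_spec
  · exact ⟨El.one, h⟩

theorem Lim.surj (e : El (J U I)) : ∃ f : ∀ t, El (I t), Lim f e := by
  cases e with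
  | zero => exact ⟨fun t => El.zero, Eventually.of_forall fun t => rfl⟩
  | n y r =>
    obtain ⟨x, hx⟩ := lim_surj y
    exact ⟨fun t => El.n (x t) r, x, hx, Eventually.of_forall fun t => rfl⟩
  | u y =>
    obtain ⟨x, hx⟩ := lim_surj y
    exact ⟨fun t => El.u (x t), x, hx, Eventually.of_forall fun t => rfl⟩
  | one => exact ⟨fun t => El.one, Eventually.of_forall fun t => rfl⟩

theorem Lim.le_iff {f g : ∀ t, El (I t)} {e e' : El (J U I)} (h : Lim f e) (h' : Lim g e') :
    e ≤ e' ↔ ∀ᶠ t in U, f t ≤ g t := by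
  cases e with
  | zero =>
    simp only [El.zero_le', true_iff]
    exact Eventually.mono h fun t h1 => by rw [h1]; simp
  | n y r =>
    obtain ⟨x, rfl, h1⟩ := h
    cases e' with
    | zero =>
      rw [eventually_congr (h1.mp (Eventually.mono h' fun t a b => by rw [a, b]))]
      simp [U.neBot.ne]
    | n y' r' =>
      obtain ⟨x', rfl, h2⟩ := h'
      rw [eventually_congr (h1.mp (h2.mono fun t a b => by rw [a, b])), El.n_le_n, lim_ge3]
      simp
    | u y' =>
      obtain ⟨x', rfl, h2⟩ := h'
      rw [eventually_congr (h1.mp (h2.mono fun t a b => by rw [a, b]))]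
      simp [U.neBot.ne]
    | one =>
      simp only [El.le_one', true_iff]
      exact Eventually.mono h' fun t h1 => by rw [h1]; simp
  | u y =>
    obtain ⟨x, rfl, h1⟩ := h
    cases e' with
    | zero =>
      rw [eventually_congr (h1.mp (Eventually.mono h' fun t a b => by rw [a, b]))]
      simp [U.neBot.ne]
    | n y' r' =>
      obtain ⟨x', rfl, h2⟩ := h'
      rw [eventually_congr (h1.mp (h2.mono fun t a b => by rw [a, b]))]
      simp [U.neBot.ne]
    | u y' =>
      obtain ⟨x', rfl, h2⟩ := h'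
      rw [eventually_congr (h1.mp (h2.mono fun t a b => by rw [a, b])), El.u_le_u, lim_le]
      simp
    | one =>
      simp only [El.le_one', true_iff]
      exact Eventually.mono h' fun t h1 => by rw [h1]; simp
  | one =>
    cases e' with
    | zero =>
      rw [eventually_congr (Eventually.mp h (Eventually.mono h' fun t a b => by rw [a, b]))]
      simp [U.neBot.ne]
    | n y' r' =>
      obtain ⟨x', rfl, h2⟩ := h'
      rw [eventually_congr (Eventually.mp h (h2.mono fun t a b => by rw [a, b]))]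
      simp [U.neBot.ne]
    | u y' =>
      obtain ⟨x', rfl, h2⟩ := h'
      rw [eventually_congr (Eventually.mp h (h2.mono fun t a b => by rw [a, b]))]
      simp [U.neBot.ne]
    | one =>
      simp only [El.le_one', true_iff]
      exact Eventually.mono h' fun t h1 => by rw [h1]; simp

theorem Lim.unique {f g : ∀ t, El (I t)} {e e' : El (J U I)} (h : Lim f e) (h' : Lim g e')
    (hfg : ∀ᶠ t in U, f t = g t) : e = e' := by
  apply le_antisymm
  · rw [h.le_iff h']; exact hfg.mono fun t h => h.le
  · rw [h'.le_iff h]; exact hfg.mono fun t h => h.ge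

variable (μ : ∀ t, I t → ℤ → Prop)

theorem Lim.mul {f g : ∀ t, El (I t)} {e e' : El (J U I)} (h : Lim f e) (h' : Lim g e') :
    Lim (fun t => El.mul (μ t) (f t) (g t)) (El.mul (marks μ) e e') := by
  cases e with
  | one => exact h'.congr (Eventually.mono h fun t h1 => by rw [h1]; rfl)
  | zero =>
    have hz : El.mul (marks μ) El.zero e' = El.zero := by cases e' <;> rfl
    rw [hz]
    refine Eventually.mono h fun t h1 => ?_
    change El.mul (μ t) (f t) (g t) = El.zero
    rw [h1]
    cases g t <;> rfl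
  | n y r =>
    cases e' with
    | one =>
      refine Lim.congr (e := El.n y r) h (Eventually.mono h' fun t h1 => ?_)
      rw [h1]
      cases f t <;> rfl
    | zero =>
      refine Eventually.mono h' fun t h1 => ?_
      change El.mul (μ t) (f t) (g t) = El.zero
      rw [h1]
      cases f t <;> rfl
    | n y' r' =>
      obtain ⟨x, rfl, h1⟩ := h
      obtain ⟨x', rfl, h2⟩ := h'
      change ∀ᶠ t in (U : Filter T), _ = _
      filter_upwards [h1, h2] with t h3 h4
      rw [h3, h4]
      rfl
    | u y' =>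
      obtain ⟨x, rfl, h1⟩ := h
      obtain ⟨x', rfl, h2⟩ := h'
      change ∀ᶠ t in (U : Filter T), _ = _
      filter_upwards [h1, h2] with t h3 h4
      rw [h3, h4]
      rfl
  | u y =>
    cases e' with
    | one =>
      refine Lim.congr (e := El.u y) h (Eventually.mono h' fun t h1 => ?_)
      rw [h1]
      cases f t <;> rfl
    | zero =>
      refine Eventually.mono h' fun t h1 => ?_
      change El.mul (μ t) (f t) (g t) = El.zero
      rw [h1]
      cases f t <;> rfl
    | n y' r' =>
      obtain ⟨x, rfl, h1⟩ := h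
      obtain ⟨x', rfl, h2⟩ := h'
      change ∀ᶠ t in (U : Filter T), _ = _
      filter_upwards [h1, h2] with t h3 h4
      rw [h3, h4]
      rfl
    | u y' =>
      obtain ⟨x, rfl, h1⟩ := h
      obtain ⟨x', rfl, h2⟩ := h'
      refine ⟨fun t => max (x t) (x' t), lim_max _ _, ?_⟩
      filter_upwards [h1, h2, lim_rr μ x x'] with t h3 h4 h5
      rw [h3, h4, ← h5]
      rfl

theorem Lim.min {f g : ∀ t, El (I t)} {e e' : El (J U I)} (h : Lim f e) (h' : Lim g e') :
    Lim (fun t => min (f t) (g t)) (min e e') := by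
  rcases le_total e e' with h1 | h1
  · rw [min_eq_left h1]
    exact h.congr (((h.le_iff h').1 h1).mono fun t ht => min_eq_left ht)
  · rw [min_eq_right h1]
    exact h'.congr (((h'.le_iff h).1 h1).mono fun t ht => min_eq_right ht)

theorem Lim.max {f g : ∀ t, El (I t)} {e e' : El (J U I)} (h : Lim f e) (h' : Lim g e') :
    Lim (fun t => max (f t) (g t)) (max e e') := by
  rcases le_total e e' with h1 | h1
  · rw [max_eq_right h1]
    exact h'.congr (((h.le_iff h').1 h1).mono fun t ht => max_eq_right ht)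
  · rw [max_eq_left h1]
    exact h.congr (((h'.le_iff h).1 h1).mono fun t ht => max_eq_left ht)

theorem Lim.res {f g : ∀ t, El (I t)} {e e' : El (J U I)} (h : Lim f e) (h' : Lim g e') :
    Lim (fun t => El.res (μ t) (f t) (g t)) (El.res (marks μ) e e') := by
  obtain ⟨d, hd⟩ := exists_lim (U := U) (fun t => El.res (μ t) (f t) (g t))
  have h1 : d = El.res (marks μ) e e' := by
    apply le_antisymm
    · rw [← El.mul_le_iff', (hd.mul μ h).le_iff h']
      refine Eventually.of_forall fun t => ?_
      rw [El.mul_le_iff']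
    · obtain ⟨k, hk⟩ := Lim.surj (El.res (marks μ) e e')
      rw [hk.le_iff hd]
      have h2 : El.mul (marks μ) (El.res (marks μ) e e') e ≤ e' := (El.mul_le_iff' _ _ _ _).2 le_rfl
      rw [(hk.mul μ h).le_iff h'] at h2
      exact h2.mono fun t ht => (El.mul_le_iff' _ _ _ _).1 ht
  rw [← h1]
  exact hd

theorem lim_ev (v : ∀ t, ℕ → El (I t)) (w : ℕ → El (J U I)) (h : ∀ i, Lim (fun t => v t i) (w i))
    (φ : Fm) : Lim (fun t => El.ev (μ t) (v t) φ) (El.ev (marks μ) w φ) := by
  induction φ with
  | var i => exact h i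
  | zero => exact Eventually.of_forall fun t => rfl
  | one => exact Eventually.of_forall fun t => rfl
  | and φ ψ h1 h2 => exact h1.min h2
  | or φ ψ h1 h2 => exact h1.max h2
  | conj φ ψ h1 h2 => exact h1.mul μ h2
  | imp φ ψ h1 h2 => exact h1.res μ h2

end Ultra

/-- No two marks at distance `d + 1` with `d ∈ S`. -/
def Legal (S : Set ℕ) (m : ℤ → Prop) : Prop := ∀ k : ℤ, ∀ d ∈ S, m k → ¬ m (k + d + 1)

/-- The consequence relation of the chains whose marks are legal. -/
def KCons (S : Set ℕ) (Γ : Set Fm) (φ : Fm) : Prop :=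
  ∀ (I : Type) [LinearOrder I] (μ : I → ℤ → Prop), (∀ i, Legal S (μ i)) →
    ∀ v : ℕ → El I, (∀ γ ∈ Γ, El.ev μ v γ = El.one) → El.ev μ v φ = El.one

/-- Compactness. -/
theorem compact {S : Set ℕ} {Γ : Set Fm} {φ : Fm} (h : KCons S Γ φ) :
    ∃ l : List Fm, (∀ γ ∈ l, γ ∈ Γ) ∧ KCons S {γ | γ ∈ l} φ := by
  classical
  by_contra hno
  push Not at hno
  have hno2 : ∀ t : Finset Fm, ∃ (I : Type) (_ : LinearOrder I) (μ : I → ℤ → Prop)
      (_ : ∀ i, Legal S (μ i)) (v : ℕ → El I), (∀ γ ∈ t, γ ∈ Γ → El.ev μ v γ = El.one) ∧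
        El.ev μ v φ ≠ El.one := by
    intro t
    have h1 := hno (t.toList.filter (fun γ => γ ∈ Γ)) (by
      intro γ hγ
      rw [List.mem_filter] at hγ
      simpa using hγ.2)
    unfold KCons at h1
    push Not at h1
    obtain ⟨I, hI, μ, hμ, v, h2, h3⟩ := h1
    refine ⟨I, hI, μ, hμ, v, fun γ hγ h4 => h2 γ ?_, h3⟩
    simp only [Set.mem_ofPred_eq, List.mem_filter, Finset.mem_toList, hγ, true_and]
    simpa using h4
  choose I hI μ hμ v h1 h2 using hno2
  have _ : Nonempty (Finset Fm) := ⟨∅⟩
  let U : Ultrafilter (Finset Fm) := Ultrafilter.of atTop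
  have hU : ∀ γ : Fm, ∀ᶠ t in (U : Filter (Finset Fm)), γ ∈ t := by
    intro γ
    have : ∀ᶠ t : Finset Fm in atTop, {γ} ≤ t := eventually_ge_atTop _
    have h3 : ∀ᶠ t : Finset Fm in atTop, γ ∈ t := this.mono fun t ht => by
      simpa using ht
    exact (Ultrafilter.of_le atTop) h3
  choose w hw using fun i : ℕ => Ultra.exists_lim (U := U) (fun t => v t i)
  have h3 := Ultra.lim_ev μ v w hw
  have h4 := h (Ultra.J U I) (Ultra.marks μ) (by
    intro j k d hd h5 h6
    obtain ⟨t, h7, h8⟩ := (Filter.Eventually.and h5 h6).exists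
    revert h7 h8
    cases (Ultra.rep j).1 t with
    | bot => intro h; exact absurd h (by simp)
    | pt i a =>
      simp only [X.shift_pt, X.mk_pt]
      intro h7 h8
      refine hμ t i (a + k) d hd h7 ?_
      have : a + k + d + 1 = a + (k + d + 1) := by ring
      rw [this]
      exact h8) w (by
    intro γ hγ
    refine (h3 γ).unique (g := fun t => El.one) (e' := El.one)
      (Eventually.of_forall fun t => rfl) ?_
    exact (hU γ).mono fun t ht => h1 t γ ht hγ)
  have h5 : ∀ᶠ t in (U : Filter (Finset Fm)), El.ev (μ t) (v t) φ = El.one := by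
    have := h3 φ
    rw [h4] at this
    exact this
  obtain ⟨t, ht⟩ := h5.exists
  exact h2 t ht

end Pool.Agent.R620.MTL
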