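import Pool.Agent.R620.MTL.El

/-! # Limits of families of the chains `El I` along an ultrafilter -/

set_option autoImplicit false

namespace Pool.Agent.R620.MTL

open Filter

namespace Ultra

variable {T : Type} (U : Ultrafilter T) (I : T → Type) [∀ t, LinearOrder (I t)]

/-- Families of positions that are almost never the bottom. -/
def G : Type := {f : ∀ t, X (I t) // ∀ᶠ t in U, f t ≠ X.bot}

variable {U I}

instance : Preorder (G U I) where
  le f g := ∃ k : ℤ, ∀ᶠ t in U, f.1 t ≤ X.shift k (g.1 t)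
  le_refl f := ⟨0, Eventually.of_forall fun t => by rw [X.shift_zero]⟩
  le_trans f g h := by
    rintro ⟨k, hk⟩ ⟨l, hl⟩
    refine ⟨l + k, ?_⟩
    filter_upwards [hk, hl] with t h1 h2
    rw [← X.shift_shift]
    exact h1.trans ((X.shift_le k _ _).2 h2)

theorem le_iff (f g : G U I) : f ≤ g ↔ ∃ k : ℤ, ∀ᶠ t in U, f.1 t ≤ X.shift k (g.1 t) := Iff.rfl

theorem le_of_ev {f g : G U I} (h : ∀ᶠ t in U, f.1 t ≤ g.1 t) : f ≤ g :=
  ⟨0, h.mono fun t ht => by rwa [X.shift_zero]⟩

instance : @Std.Total (G U I) (· ≤ ·) where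
  total f g := by
    by_cases h : ∀ᶠ t in U, f.1 t ≤ g.1 t
    · exact Or.inl (le_of_ev h)
    · right
      rw [← Ultrafilter.eventually_not] at h
      exact le_of_ev (h.mono fun t ht => (le_of_not_ge ht))

/-- If two families are at bounded distance then the distance is constant almost everywhere. -/
theorem pigeon (f g : G U I) (h : f ≤ g) (h' : g ≤ f) :
    ∃ m : ℤ, ∀ᶠ t in U, f.1 t = X.shift m (g.1 t) := by
  obtain ⟨k, hk⟩ := h
  obtain ⟨l, hl⟩ := h'
  have h1 : ∀ᶠ t in U, ∃ m ∈ Set.Icc (-l) k, f.1 t = X.shift m (g.1 t) := by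
    filter_upwards [hk, hl, f.2, g.2] with t h1 h2 h3 h4
    revert h1 h2 h3 h4
    cases f.1 t with
    | bot => intro _ _ h; exact absurd rfl h
    | pt i a =>
      cases g.1 t with
      | bot => intro _ _ _ h; exact absurd rfl h
      | pt j b =>
        intro h1 h2 _ _
        simp only [X.shift_pt, X.pt_le_pt] at h1 h2
        rcases h1 with h1 | ⟨rfl, h1⟩
        · rcases h2 with h2 | ⟨h2, _⟩
          · exact absurd h1 (not_lt_of_gt h2)
          · exact absurd h2.symm h1.ne
        · rcases h2 with h2 | ⟨_, h2⟩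
          · exact absurd h2 (lt_irrefl _)
          · exact ⟨a - b, ⟨by omega, by omega⟩, by simp⟩
  rw [Ultrafilter.eventually_exists_mem_iff (Set.finite_Icc _ _)] at h1
  obtain ⟨m, _, hm⟩ := h1
  exact ⟨m, hm⟩

variable (U I) in
/-- The index set of the blocks of the limit. -/
def J : Type := Antisymmetrization (G U I) (· ≤ ·)

noncomputable instance : LinearOrder (J U I) :=
  haveI : DecidableLE (G U I) := Classical.decRel _
  haveI : DecidableLT (G U I) := Classical.decRel _
  inferInstanceAs (LinearOrder (Antisymmetrization (G U I) (· ≤ ·)))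

/-- The block of a family. -/
def cls (f : G U I) : J U I := toAntisymmetrization (· ≤ ·) f

/-- A representative. -/
noncomputable def rep (j : J U I) : G U I := ofAntisymmetrization (· ≤ ·) j

theorem cls_rep (j : J U I) : cls (rep j) = j := toAntisymmetrization_ofAntisymmetrization _ _

theorem cls_le (f g : G U I) : cls f ≤ cls g ↔ f ≤ g := Iff.rfl

theorem off_exists (f : G U I) : ∃ m : ℤ, ∀ᶠ t in U, f.1 t = X.shift m ((rep (cls f)).1 t) := by
  have h : cls (rep (cls f)) = cls f := cls_rep _
  exact pigeon _ _ ((cls_le _ _).1 h.ge) ((cls_le _ _).1 h.le)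

/-- The offset. -/
noncomputable def off (f : G U I) : ℤ := (off_exists f).choose

theorem off_spec (f : G U I) : ∀ᶠ t in U, f.1 t = X.shift (off f) ((rep (cls f)).1 t) :=
  (off_exists f).choose_spec

open Classical in
/-- The limit of a family. -/
noncomputable def lim (U : Ultrafilter T) (f : ∀ t, X (I t)) : X (J U I) :=
  if h : ∀ᶠ t in U, f t ≠ X.bot then X.pt (cls (⟨f, h⟩ : G U I)) (off (⟨f, h⟩ : G U I)) else X.bot

theorem lim_bot {f : ∀ t, X (I t)} (h : ∀ᶠ t in U, f t = X.bot) : lim U f = X.bot := by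
  unfold lim
  rw [dif_neg]
  intro h2
  obtain ⟨t, h3, h4⟩ := (h.and h2).exists
  exact h4 h3

theorem lim_pt {f : ∀ t, X (I t)} (h : ∀ᶠ t in U, f t ≠ X.bot) :
    lim U f = X.pt (cls (⟨f, h⟩ : G U I)) (off (⟨f, h⟩ : G U I)) := dif_pos h

theorem bot_or (f : ∀ t, X (I t)) : (∀ᶠ t in U, f t = X.bot) ∨ (∀ᶠ t in U, f t ≠ X.bot) := by
  by_cases h : ∀ᶠ t in U, f t = X.bot
  · exact Or.inl h
  · exact Or.inr (Ultrafilter.eventually_not.2 h)

theorem lim_le (f g : ∀ t, X (I t)) : lim U f ≤ lim U g ↔ ∀ᶠ t in U, f t ≤ g t := by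
  rcases bot_or (U := U) f with hf | hf
  · rw [lim_bot hf]
    simp only [X.bot_le', true_iff]
    exact hf.mono fun t ht => by rw [ht]; exact X.bot_le' _
  rcases bot_or (U := U) g with hg | hg
  · rw [lim_bot hg, lim_pt hf]
    simp only [X.pt_le_bot, false_iff]
    intro h
    obtain ⟨t, h1, h2, h3⟩ := (h.and (hf.and hg)).exists
    rw [h3] at h1
    cases e : f t with
    | bot => exact h2 e
    | pt i k => rw [e] at h1; simp at h1
  rw [lim_pt hf, lim_pt hg, X.pt_le_pt]
  set F : G U I := ⟨f, hf⟩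
  set H : G U I := ⟨g, hg⟩
  have h1 := off_spec F
  have h2 := off_spec H
  have key : cls F = cls H → (off F ≤ off H ↔ ∀ᶠ t in U, f t ≤ g t) := by
    intro e
    rw [← e] at h2
    have h3 := (rep (cls F)).2
    constructor
    · intro hle
      filter_upwards [h1, h2, h3] with t h1 h2 h3
      change F.1 t ≤ H.1 t
      rw [h1, h2]
      cases (rep (cls F)).1 t with
      | bot => simp
      | pt i k => simp [hle]
    · intro hev
      obtain ⟨t, h1, h2, h3, h4⟩ := (h1.and (h2.and (h3.and hev))).exists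
      change F.1 t ≤ H.1 t at h4
      rw [h1, h2] at h4
      revert h3 h4
      cases (rep (cls F)).1 t with
      | bot => intro h; exact absurd rfl h
      | pt i k => intro _ h; simpa using h
  constructor
  · rintro (h | ⟨h, h'⟩)
    · have h4 : ¬ (H ≤ F) := fun h5 => not_le_of_gt h ((cls_le _ _).2 h5)
      by_contra h5
      rw [← Ultrafilter.eventually_not] at h5
      exact h4 (le_of_ev (h5.mono fun t ht => le_of_not_ge ht))
    · exact (key h).1 h'
  · intro h
    have h4 : cls F ≤ cls H := (cls_le _ _).2 (le_of_ev h)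
    rcases h4.lt_or_eq with h5 | h5
    · exact Or.inl h5
    · exact Or.inr ⟨h5, (key h5).2 h⟩

theorem lim_eq (f g : ∀ t, X (I t)) : lim U f = lim U g ↔ ∀ᶠ t in U, f t = g t := by
  rw [le_antisymm_iff, lim_le, lim_le, ← eventually_and]
  simp only [le_antisymm_iff]

theorem lim_surj (x : X (J U I)) : ∃ f : ∀ t, X (I t), lim U f = x := by
  cases x with
  | bot => exact ⟨fun t => X.bot, lim_bot (Eventually.of_forall fun t => rfl)⟩
  | pt j k =>
    have h0 : ∀ᶠ t in U, X.shift k ((rep j).1 t) ≠ X.bot := by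
      filter_upwards [(rep j).2] with t ht
      revert ht
      cases (rep j).1 t with
      | bot => intro h; exact absurd rfl h
      | pt i k => intro _; simp
    refine ⟨fun t => X.shift k ((rep j).1 t), ?_⟩
    rw [lim_pt h0]
    set F : G U I := ⟨fun t => X.shift k ((rep j).1 t), h0⟩ with hF
    have h1 : cls F = j := by
      rw [← cls_rep j]
      refine le_antisymm ((cls_le _ _).2 ⟨k, Eventually.of_forall fun t => le_rfl⟩)
        ((cls_le _ _).2 ⟨-k, Eventually.of_forall fun t => ?_⟩)
      change (rep j).1 t ≤ X.shift (-k) (X.shift k ((rep j).1 t))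
      rw [X.shift_shift]
      simp [X.shift_zero]
    have h2 := off_spec F
    rw [h1] at h2
    obtain ⟨t, h3, h4⟩ := (h2.and (rep j).2).exists
    have h5 : X.shift k ((rep j).1 t) = X.shift (off F) ((rep j).1 t) := h3
    have h6 : off F = k := by
      revert h4 h5
      cases (rep j).1 t with
      | bot => intro h; exact absurd rfl h
      | pt i k => intro _ h; simpa using h.symm
    rw [h1, h6]

theorem lim_shift (a : ℤ) (f : ∀ t, X (I t)) :
    lim U (fun t => X.shift a (f t)) = X.shift a (lim U f) := by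
  rcases bot_or (U := U) f with hf | hf
  · rw [lim_bot hf, lim_bot]
    · rfl
    · exact hf.mono fun t ht => by rw [ht]; rfl
  have hf' : ∀ᶠ t in U, X.shift a (f t) ≠ X.bot := by
    filter_upwards [hf] with t ht
    revert ht
    cases f t with
    | bot => intro h; exact absurd rfl h
    | pt i k => intro _; simp
  rw [lim_pt hf, lim_pt hf']
  set F : G U I := ⟨f, hf⟩ with hF
  set H : G U I := ⟨fun t => X.shift a (f t), hf'⟩ with hH
  have h1 : cls H = cls F := by
    refine le_antisymm ((cls_le _ _).2 ⟨a, Eventually.of_forall fun t => le_rfl⟩)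
        ((cls_le _ _).2 ⟨-a, Eventually.of_forall fun t => ?_⟩)
    change f t ≤ X.shift (-a) (X.shift a (f t))
    rw [X.shift_shift]
    simp [X.shift_zero]
  rw [h1, X.shift_pt]
  congr 1
  have h2 := off_spec H
  have h3 := off_spec F
  rw [h1] at h2
  obtain ⟨t, h4, h5, h6⟩ := (h2.and (h3.and (rep (cls F)).2)).exists
  have h7 : X.shift a (f t) = X.shift (off H) ((rep (cls F)).1 t) := h4
  have h8 : f t = X.shift (off F) ((rep (cls F)).1 t) := h5
  rw [h8, X.shift_shift] at h7
  revert h6 h7
  cases (rep (cls F)).1 t with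
  | bot => intro h; exact absurd rfl h
  | pt i k => intro _ h; simpa using h.symm

variable (μ : ∀ t, I t → ℤ → Prop)

/-- The marks of the limit. -/
def marks (j : J U I) (k : ℤ) : Prop :=
  ∀ᶠ t in U, X.mk (μ t) (X.shift k ((rep j).1 t))

theorem mk_lim (f : ∀ t, X (I t)) :
    X.mk (marks μ) (lim U f) ↔ ∀ᶠ t in U, X.mk (μ t) (f t) := by
  rcases bot_or (U := U) f with hf | hf
  · rw [lim_bot hf]
    simp only [X.mk_bot, false_iff]
    intro h
    obtain ⟨t, h1, h2⟩ := (hf.and h).exists
    rw [h1] at h2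
    exact h2
  · rw [lim_pt hf, X.mk_pt, marks]
    have h1 := off_spec (⟨f, hf⟩ : G U I)
    refine eventually_congr (h1.mono fun t ht => ?_)
    rw [← ht]

theorem lim_max (f g : ∀ t, X (I t)) :
    lim U (fun t => max (f t) (g t)) = max (lim U f) (lim U g) := by
  rcases le_total (lim U f) (lim U g) with h | h
  · rw [max_eq_right h, lim_eq]
    exact ((lim_le _ _).1 h).mono fun t ht => max_eq_right ht
  · rw [max_eq_left h, lim_eq]
    exact ((lim_le _ _).1 h).mono fun t ht => max_eq_left ht

theorem lim_rr (f g : ∀ t, X (I t)) :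
    ∀ᶠ t in U, X.rr (μ t) (f t) (g t) = X.rr (marks μ) (lim U f) (lim U g) := by
  have e1 : lim U f = lim U g ↔ ∀ᶠ t in U, f t = g t := lim_eq f g
  have e2 : ∀ a : ℤ, ∀ f g : ∀ t, X (I t), lim U g = X.shift a (lim U f) ↔
      ∀ᶠ t in U, g t = X.shift a (f t) := by
    intro a f g
    rw [← lim_shift, lim_eq]
  have e3 := mk_lim (U := U) μ f
  have e4 := mk_lim (U := U) μ g
  unfold X.rr
  by_cases h1 : lim U f = lim U g ∨ lim U g = X.shift 1 (lim U f) ∨
    lim U f = X.shift 1 (lim U g)
  · rw [if_pos h1]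
    rw [e1, e2, e2, ← Ultrafilter.eventually_or, ← Ultrafilter.eventually_or] at h1
    exact h1.mono fun t ht => if_pos ht
  · rw [if_neg h1]
    rw [e1, e2, e2, ← Ultrafilter.eventually_or, ← Ultrafilter.eventually_or,
      ← Ultrafilter.eventually_not] at h1
    by_cases h2 : (lim U g = X.shift 2 (lim U f) ∧ X.mk (marks μ) (lim U f)) ∨
        (lim U f = X.shift 2 (lim U g) ∧ X.mk (marks μ) (lim U g))
    · rw [if_pos h2]
      rw [e2, e2, e3, e4, ← eventually_and, ← eventually_and, ← Ultrafilter.eventually_or] at h2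
      filter_upwards [h1, h2] with t h3 h4
      rw [if_neg h3, if_pos h4]
    · rw [if_neg h2]
      rw [e2, e2, e3, e4, ← eventually_and, ← eventually_and, ← Ultrafilter.eventually_or,
        ← Ultrafilter.eventually_not] at h2
      filter_upwards [h1, h2] with t h3 h4
      rw [if_neg h3, if_neg h4]

end Ultra

end Pool.Agent.R620.MTL
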